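import Pool.Agent.H500.ED.Main1
import Pool.Agent.H500.ZO.All
import Pool.Agent.H825.ZO.ZL
import Pool.Agent.H139.ZO.Com

set_option autoImplicit false
set_option linter.unusedSectionVars false

/-!
# Level one: the group theory
-/

namespace Pool.Agent.H500.LV

open NumberField IsDedekindDomain Filter Topology Polynomial
open Pool.Agent.W401.Cheb (GK IsFrob IsInert dens)
open Pool.Agent.H500.HC
open Pool.Agent.H500.MW (PosUD)
open Pool.Agent.H500.R2 (UnrOut)
open Pool.Agent.H500.SV (Fld SemiAb Diagble)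
open Pool.Agent.H500.ZO (PotHecke)

section
variable {K : Type} [Field K] [NumberField K]

/-- every place of `K` is generated by a totally positive element -/
def NC1 (K : Type) [Field K] [NumberField K] : Prop :=
  ∀ v : HeightOneSpectrum (𝓞 K), ∃ x : 𝓞 K, TotPos x ∧ v.asIdeal = Ideal.span {x}

theorem inRay_one {v : HeightOneSpectrum (𝓞 K)} {x : 𝓞 K} (hx : TotPos x)
    (hv : v.asIdeal = Ideal.span {x}) : InRay 1 x := by
  refine ⟨?_, ?_, hx⟩
  · rintro rfl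
    apply v.ne_bot
    rw [hv, Ideal.span_singleton_eq_bot]
  · rw [Nat.cast_one]
    exact one_dvd _

/-- an everywhere unramified character is trivial -/
theorem triv_char (hK : NC1 K) (θ : GK K →* ℂˣ) (hop : IsOpen (θ.ker : Set (GK K)))
    (hun : UnrOut 1 θ.ker) : θ = 1 := by
  obtain ⟨χ, e, h1, h2, h3, h4⟩ := Pool.Agent.H500.AS.all_Bridge K 1 ℂ θ one_ne_zero hop
    (fun v hv σ hσ => hun v hv σ hσ)
  have h5 : ∀ (v : HeightOneSpectrum (𝓞 K)) (σ : GK K), IsFrob v σ → θ σ = 1 := by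
    intro v σ hσ
    have hv : ((1 : ℕ) : 𝓞 K) ∉ v.asIdeal := by
      rw [Nat.cast_one]
      exact fun h => v.isPrime.ne_top ((Ideal.eq_top_iff_one _).2 h)
    obtain ⟨x, hx, hxv⟩ := hK v
    have h6 := h3 v hv σ hσ
    rw [hxv, h2 x (by rw [one_pow]; exact inRay_one hx hxv)] at h6
    exact Units.ext h6.symm
  refine MonoidHom.ext fun g => ?_
  obtain ⟨v, σ, -, -, hσ, hg⟩ := Pool.Agent.H139.ZO.frob_ex θ.ker inferInstance hop g
    (B := ∅) Set.finite_empty one_pos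
  rw [MonoidHom.mem_ker, map_mul, map_inv, inv_mul_eq_one] at hg
  rw [hg, h5 v σ hσ]
  rfl

/-- there is no everywhere unramified solvable extension -/
theorem top_of (hK : NC1 K) (Z : Subgroup (GK K)) (hn : Z.Normal) (ho : IsOpen (Z : Set (GK K)))
    (hs : ∃ r, derivedSeries (GK K) r ≤ Z) (hu : UnrOut 1 Z) : Z = ⊤ := by
  classical
  by_contra hne
  have hfin : Finite (GK K ⧸ Z) := Subgroup.quotient_finite_of_isOpen _ ho
  have hnt : Nontrivial (GK K ⧸ Z) := by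
    rw [QuotientGroup.nontrivial_iff]
    exact hne
  have hsol : Group.IsSolvable (GK K ⧸ Z) := by
    obtain ⟨r, hr⟩ := hs
    refine ⟨⟨r, ?_⟩⟩
    rw [← map_derivedSeries_eq (QuotientGroup.mk'_surjective Z), Subgroup.map_eq_bot_iff,
      QuotientGroup.ker_mk']
    exact hr
  have hlt : commutator (GK K ⧸ Z) < ⊤ := Group.IsSolvable.commutator_lt_top_of_nontrivial _
  obtain ⟨a, -, ha⟩ := SetLike.exists_of_lt hlt
  have ha1 : (Abelianization.of a : Abelianization (GK K ⧸ Z)) ≠ 1 := by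
    intro h
    apply ha
    rw [← Abelianization.ker_of]
    exact h
  have hfA : Finite (Abelianization (GK K ⧸ Z)) :=
    Finite.of_surjective (Abelianization.of : (GK K ⧸ Z) →* _) (QuotientGroup.mk_surjective)
  obtain ⟨φ, hφ⟩ := CommGroup.exists_apply_ne_one_of_hasEnoughRootsOfUnity
    (Abelianization (GK K ⧸ Z)) ℂ ha1
  set θ : GK K →* ℂˣ := φ.comp (Abelianization.of.comp (QuotientGroup.mk' Z)) with hθ
  have hZ : Z ≤ θ.ker := by
    intro z hz
    rw [MonoidHom.mem_ker, hθ, MonoidHom.comp_apply, MonoidHom.comp_apply]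
    have h1 : QuotientGroup.mk' Z z = 1 := by
      rw [← MonoidHom.mem_ker, QuotientGroup.ker_mk']
      exact hz
    rw [h1, map_one, map_one]
  have h2 : θ = 1 := triv_char hK θ (Subgroup.isOpen_mono hZ ho)
    (fun v hv σ hσ => hZ (hu v hv σ hσ))
  obtain ⟨g, rfl⟩ := QuotientGroup.mk'_surjective Z a
  apply hφ
  exact DFunLike.congr_fun h2 g

end

theorem diag_one {n : ℕ} {k : Type} [Field k] (d : Fin n → k)
    (h : (Matrix.diagonal d).charpoly = (X - 1) ^ n) : Matrix.diagonal d = 1 := by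
  rw [← Matrix.diagonal_one]
  congr 1
  funext i
  rw [Matrix.charpoly_diagonal] at h
  have h6 := congrArg (Polynomial.eval (d i)) h
  rw [Polynomial.eval_prod, Finset.prod_eq_zero (Finset.mem_univ i) (by simp)] at h6
  rw [Polynomial.eval_pow, Polynomial.eval_sub, Polynomial.eval_X, Polynomial.eval_one] at h6
  exact sub_eq_zero.1 (eq_zero_of_pow_eq_zero h6.symm)

theorem diag_one' {n : ℕ} {k : Type} [Field k] (D : Matrix (Fin n) (Fin n) k) (hd : D.IsDiag)
    (h : D.charpoly = (X - 1) ^ n) : D = 1 := by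
  have e := hd.diagonal_diag
  have h' : (Matrix.diagonal D.diag).charpoly = (X - 1) ^ n := by rw [e]; exact h
  exact e.symm.trans (diag_one _ h')

theorem one_of_diag {n : ℕ} {k : Type} [Field k] (Q g : GL (Fin n) k)
    (hd : ((Q * g * Q⁻¹ : GL (Fin n) k) : Matrix (Fin n) (Fin n) k).IsDiag)
    (hc : (g : Matrix (Fin n) (Fin n) k).charpoly = (X - 1) ^ n) : g = 1 := by
  have h1 : ((Q * g * Q⁻¹ : GL (Fin n) k) : Matrix (Fin n) (Fin n) k) =
      (Q : Matrix (Fin n) (Fin n) k) * (g : Matrix (Fin n) (Fin n) k) *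
        ((Q⁻¹ : GL (Fin n) k) : Matrix (Fin n) (Fin n) k) := rfl
  have h3 : ((Q * g * Q⁻¹ : GL (Fin n) k) : Matrix (Fin n) (Fin n) k).charpoly = (X - 1) ^ n := by
    rw [← hc, h1, Matrix.coe_units_inv]
    exact Matrix.charpoly_units_conj (n := Fin n) (R := k) Q (g : Matrix (Fin n) (Fin n) k)
  have h4 := diag_one' _ hd h3
  have h6 : Q * g * Q⁻¹ = 1 := Units.ext h4
  have h7 : g = Q⁻¹ * (Q * g * Q⁻¹) * Q := by group
  rw [h7, h6]
  group

/-- a normal subgroup of unipotent elements acts trivially -/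
theorem triv_of {G : Type} [Group G] {k : Type} [Field k] {n l : ℕ} (hl : l.Prime) [CharP k l]
    (ρ : G →* GL (Fin n) k) (hfin : Finite ρ.range) (hab : SemiAb ρ) (H : Subgroup G)
    (hH : H.Normal)
    (hu : ∀ h ∈ H, (ρ h : Matrix (Fin n) (Fin n) k).charpoly = (X - 1) ^ n) :
    ∀ h ∈ H, ρ h = 1 := by
  classical
  have : Fact l.Prime := ⟨hl⟩
  set Hb : Subgroup (GL (Fin n) k) := H.map ρ with hHb
  have hfH : Finite Hb := Finite.of_injective _ (Subgroup.inclusion_injective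
    (show Hb ≤ ρ.range by rw [MonoidHom.range_eq_map]; exact Subgroup.map_mono le_top))
  have hpg : IsPGroup l Hb := by
    rintro ⟨g, hg⟩
    obtain ⟨y, hy, rfl⟩ := hg
    obtain ⟨m, hm⟩ := Pool.Agent.H825.ZO.ZL.pow_eq_one hl (ρ y) (hu y hy)
    exact ⟨m, Subtype.ext hm⟩
  -- the centre
  let A : Subgroup G :=
    { carrier := {g | ρ g ∈ Hb ∧ ∀ h ∈ H, ρ g * ρ h = ρ h * ρ g}
      mul_mem' := by
        rintro a b ⟨ha1, ha2⟩ ⟨hb1, hb2⟩
        refine ⟨by rw [map_mul]; exact mul_mem ha1 hb1, fun h hh => ?_⟩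
        rw [map_mul, mul_assoc, hb2 h hh, ← mul_assoc, ha2 h hh, mul_assoc]
      one_mem' := ⟨by rw [map_one]; exact one_mem _, fun h _ => by rw [map_one, one_mul, mul_one]⟩
      inv_mem' := by
        rintro a ⟨ha1, ha2⟩
        refine ⟨by rw [map_inv]; exact inv_mem ha1, fun h hh => ?_⟩
        rw [map_inv, inv_mul_eq_iff_eq_mul, ← mul_assoc, ha2 h hh, mul_assoc, mul_inv_cancel,
          mul_one] }
  have hAn : A.Normal := by
    refine ⟨fun a ha g => ?_⟩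
    obtain ⟨⟨y, hy, hya⟩, ha2⟩ := ha
    refine ⟨⟨g * y * g⁻¹, hH.conj_mem y hy g, ?_⟩, fun h hh => ?_⟩
    · rw [map_mul, map_mul, map_mul, map_mul, hya]
    · have h1 := ha2 (g⁻¹ * h * g) (by
        have := hH.conj_mem h hh g⁻¹
        rwa [inv_inv] at this)
      simp only [map_mul, map_inv] at h1 ⊢
      have h2 : ρ g * (ρ a * ((ρ g)⁻¹ * ρ h * ρ g)) * (ρ g)⁻¹ =
          ρ g * ((ρ g)⁻¹ * ρ h * ρ g * ρ a) * (ρ g)⁻¹ := by rw [h1]
      calc ρ g * ρ a * (ρ g)⁻¹ * ρ h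
          = ρ g * (ρ a * ((ρ g)⁻¹ * ρ h * ρ g)) * (ρ g)⁻¹ := by group
        _ = ρ g * ((ρ g)⁻¹ * ρ h * ρ g * ρ a) * (ρ g)⁻¹ := h2
        _ = ρ h * (ρ g * ρ a * (ρ g)⁻¹) := by group
  have hAab : ∀ a ∈ A, ∀ b ∈ A, ρ a * ρ b = ρ b * ρ a := by
    rintro a ⟨-, ha2⟩ b ⟨⟨y, hy, hyb⟩, -⟩
    rw [← hyb]
    exact ha2 y hy
  obtain ⟨Q, hQ⟩ := hab A hAn hAab
  have hA1 : ∀ a ∈ A, ρ a = 1 := by
    intro a ha
    have h1 := hQ a ha
    obtain ⟨⟨y, hy, hya⟩, -⟩ := ha
    exact one_of_diag Q (ρ a) h1 (by rw [← hya]; exact hu y hy)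
  by_contra hne
  push Not at hne
  obtain ⟨h, hh, hh1⟩ := hne
  have hnt : Nontrivial Hb :=
    ⟨⟨⟨ρ h, h, hh, rfl⟩, 1, fun h' => hh1 (congrArg Subtype.val h')⟩⟩
  have hct := hpg.center_nontrivial
  obtain ⟨⟨⟨z, hz⟩, hzc⟩, hz1⟩ := exists_ne (1 : Subgroup.center Hb)
  obtain ⟨y, hy, rfl⟩ := hz
  apply hz1
  apply Subtype.ext
  apply Subtype.ext
  refine hA1 y ⟨⟨y, hy, rfl⟩, fun h hh => ?_⟩
  have h7 := Subgroup.mem_center_iff.1 hzc ⟨ρ h, h, hh, rfl⟩
  exact (congrArg Subtype.val h7).symm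

end Pool.Agent.H500.LV
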