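import Pool.Agent.H500.LV.A
import Pool.Agent.H500.TH.Gal

set_option autoImplicit false
set_option linter.unusedSectionVars false

/-!
# Level one: residual representations
-/

namespace Pool.Agent.H500.LV

open NumberField IsDedekindDomain Filter Topology Polynomial
open Pool.Agent.W401.Cheb (GK IsFrob IsInert dens)
open Pool.Agent.H500.HC
open Pool.Agent.H500.MW (PosUD)
open Pool.Agent.H500.R2 (UnrOut exists_char frob_at fin_range)
open Pool.Agent.H500.SV (Fld SemiAb Diagble)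
open Pool.Agent.H500.ZO (PotHecke)
open scoped commutatorElement
open Pool.Agent.H500.TH

section
variable {K E : Type} [Field K] [NumberField K] [Field E] [NumberField E]

theorem one_of_pow {k : Type} [Field k] {l : ℕ} (hl : l.Prime) (hlk : (l : k) = 0) (e : ℕ) {y : k}
    (hy : y ^ l ^ e = 1) : y = 1 := by
  induction e with
  | zero => rwa [pow_zero, pow_one] at hy
  | succ e ih =>
    rw [pow_succ, pow_mul] at hy
    exact ih (Pool.Agent.H500.ED.pow_l_one hl hlk hy)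

/-- characters unramified outside `l` in characteristic `l`: the conductor is `l` -/
theorem ray_l {k : Type} [Field k] {l e : ℕ} (hl : l.Prime) (hlk : (l : k) = 0)
    (χ : Ideal (𝓞 K) →*₀ k)
    (h : ∀ x : 𝓞 K, InRay ((1 * l) ^ e) x → χ (Ideal.span {x}) = 1) (x : 𝓞 K)
    (hx : InRay (1 * l) x) : χ (Ideal.span {x}) = 1 := by
  obtain ⟨h0, h1, h2⟩ := hx
  rw [one_mul] at h1
  have h3 : InRay ((1 * l) ^ e) (x ^ l ^ e) := by
    refine ⟨pow_ne_zero _ h0, ?_, fun τ => ?_⟩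
    · have h4 := dvd_sub_pow_of_dvd_sub (R := 𝓞 K) (p := l) (a := x) (b := 1) h1 e
      rw [one_pow] at h4
      rw [one_mul, Nat.cast_pow]
      exact (pow_dvd_pow _ (Nat.le_succ e)).trans h4
    · have h5 : τ (((x ^ l ^ e : 𝓞 K)) : K) = τ (x : K) ^ l ^ e := by
        rw [← map_pow]
        rfl
      rw [h5]
      exact pow_pos (h2 τ) _
  have h4 := h _ h3
  rw [← Ideal.span_singleton_pow, map_pow] at h4
  exact one_of_pow hl hlk e h4

theorem gal_res1 (n : ℕ) (P : HeightOneSpectrum (𝓞 K) → (𝓞 E)[X])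
    (lam : HeightOneSpectrum (𝓞 E)) (h : AbGal 1 n P lam) : AbRes 1 n P lam := by
  classical
  obtain ⟨k, _, φ, θ, hker, hop, hun, hfr⟩ := h
  obtain ⟨l, f, hl, hlm, hf0, hlf⟩ := exists_char lam
  have hlk : (l : k) = 0 := by
    have h1 : φ (l : 𝓞 E) = 0 := by
      rw [← RingHom.mem_ker, hker]
      exact hlm
    rwa [map_natCast] at h1
  have hiff : ∀ v : HeightOneSpectrum (𝓞 K), (l : 𝓞 K) ∉ v.asIdeal →
      ((Ideal.absNorm lam.asIdeal : ℕ) : 𝓞 K) ∉ v.asIdeal := by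
    intro v hv h1
    rw [hlf, Nat.cast_pow] at h1
    exact hv (v.isPrime.mem_of_pow_mem _ h1)
  have hB : ∀ i, ∃ χ : Ideal (𝓞 K) →*₀ k, IsRayChar (1 * l) χ ∧
      ∀ v : HeightOneSpectrum (𝓞 K), ((1 * l : ℕ) : 𝓞 K) ∉ v.asIdeal → ∀ σ, IsFrob v σ →
        χ v.asIdeal = (θ i σ : k) := by
    intro i
    obtain ⟨χ, e, h1, h2, h3, h4⟩ := Pool.Agent.H500.AS.all_Bridge K (1 * l) k (θ i)
      (by rw [one_mul]; exact hl.ne_zero) (hop i)
      (fun v hv σ hσ => hun i v (by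
        rw [one_mul] at hv ⊢
        exact hiff v hv) σ hσ)
    exact ⟨χ, ⟨h1, ray_l hl hlk χ h2⟩, h3⟩
  choose χ hχ1 hχ2 using hB
  refine ⟨k, inferInstance, φ, l, χ, hker, hl, hlm, hχ1, ?_⟩
  intro v hv hvl
  obtain ⟨σ, hσ⟩ := frob_at v
  rw [hfr v hv (hiff v hvl) σ hσ]
  refine Finset.prod_congr rfl fun i _ => ?_
  rw [hχ2 i v (by rw [one_mul]; exact hvl) σ hσ]

/-- the characters of a diagonal representation -/
def dch {G : Type} [Group G] {k : Type} [Field k] {n : ℕ} (ρ : G →* GL (Fin n) k)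
    (hd : ∀ g, (ρ g : Matrix (Fin n) (Fin n) k).IsDiag) (i : Fin n) : G →* kˣ :=
  MonoidHom.toHomUnits
    { toFun := fun g => (ρ g : Matrix (Fin n) (Fin n) k) i i
      map_one' := by rw [map_one, Units.val_one, Matrix.one_apply_eq]
      map_mul' := fun a b => by
        rw [map_mul, Units.val_mul, Matrix.mul_apply]
        refine Finset.sum_eq_single i (fun j _ hj => ?_) (fun h => absurd (Finset.mem_univ i) h)
        rw [hd a (Ne.symm hj), zero_mul] }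

theorem dch_coe {G : Type} [Group G] {k : Type} [Field k] {n : ℕ} (ρ : G →* GL (Fin n) k)
    (hd : ∀ g, (ρ g : Matrix (Fin n) (Fin n) k).IsDiag) (i : Fin n) (g : G) :
    (dch ρ hd i g : k) = (ρ g : Matrix (Fin n) (Fin n) k) i i := rfl

theorem dch_ker {G : Type} [Group G] {k : Type} [Field k] {n : ℕ} (ρ : G →* GL (Fin n) k)
    (hd : ∀ g, (ρ g : Matrix (Fin n) (Fin n) k).IsDiag) (i : Fin n) : ρ.ker ≤ (dch ρ hd i).ker := by
  intro g hg
  rw [MonoidHom.mem_ker] at hg ⊢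
  apply Units.ext
  rw [dch_coe, hg, Units.val_one, Matrix.one_apply_eq, Units.val_one]

theorem dch_charpoly {G : Type} [Group G] {k : Type} [Field k] {n : ℕ} (ρ : G →* GL (Fin n) k)
    (hd : ∀ g, (ρ g : Matrix (Fin n) (Fin n) k).IsDiag) (g : G) :
    (ρ g : Matrix (Fin n) (Fin n) k).charpoly = ∏ i, (X - Polynomial.C (dch ρ hd i g : k)) := by
  have e := (hd g).diagonal_diag
  have h1 : (Matrix.diagonal (ρ g : Matrix (Fin n) (Fin n) k).diag).charpoly =
      ∏ i, (X - Polynomial.C (dch ρ hd i g : k)) := by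
    rw [Matrix.charpoly_diagonal]
    rfl
  rw [← h1, e]

/-- unipotent commutators: the image of a normal subgroup is commutative -/
theorem comm_of {G G' : Type} [Group G] [Group G'] {k : Type} [Field k] {n l : ℕ} (hl : l.Prime)
    [CharP k l] (ρ : G →* GL (Fin n) k) (hfin : Finite ρ.range) (hab : SemiAb ρ) (ι : G' →* G)
    (hn : ι.range.Normal)
    (hu : ∀ c ∈ commutator G', (ρ (ι c) : Matrix (Fin n) (Fin n) k).charpoly = (X - 1) ^ n) :
    ∀ a ∈ ι.range, ∀ b ∈ ι.range, ρ a * ρ b = ρ b * ρ a := by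
  have hH : ((commutator G').map ι).Normal := by
    rw [commutator_def, Subgroup.map_commutator, ← MonoidHom.range_eq_map]
    exact Subgroup.commutator_normal _ _
  have h1 := triv_of hl ρ hfin hab _ hH (by
    rintro _ ⟨c, hc, rfl⟩
    exact hu c hc)
  rintro _ ⟨a, rfl⟩ _ ⟨b, rfl⟩
  have h2 := h1 (ι ⁅a, b⁆) ⟨⁅a, b⁆, Subgroup.commutator_mem_commutator (Subgroup.mem_top a)
    (Subgroup.mem_top b), rfl⟩
  rw [map_commutatorElement, map_commutatorElement, commutatorElement_eq_one_iff_mul_comm] at h2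
  exact h2

theorem one_not_mem (v : HeightOneSpectrum (𝓞 K)) : ((1 : ℕ) : 𝓞 K) ∉ v.asIdeal := by
  rw [Nat.cast_one]
  exact fun h => v.isPrime.ne_top ((Ideal.eq_top_iff_one _).2 h)

theorem not_both (v : HeightOneSpectrum (𝓞 K)) (h2 : ((2 : ℕ) : 𝓞 K) ∈ v.asIdeal)
    (h3 : ((3 : ℕ) : 𝓞 K) ∈ v.asIdeal) : False := by
  apply one_not_mem v
  have h1 : ((1 : ℕ) : 𝓞 K) = ((3 : ℕ) : 𝓞 K) - ((2 : ℕ) : 𝓞 K) := by
    push_cast
    ring
  rw [h1]
  exact sub_mem h3 h2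

/-- **level one**: residual representations with solvable images are sums of characters -/
theorem ab_gal (hK : NC1 K) (j : E →+* QBar) (n : ℕ) (P : HeightOneSpectrum (𝓞 K) → (𝓞 E)[X])
    {U : Subgroup (GK K)} {L : Type} [Field L] [NumberField L] [Algebra K L] {ι : GK L →* GK K}
    {e : ℕ} {t : Fin n → (L →+* QBar) → ℕ} {ψ : Fin n → (Ideal (𝓞 L) →*₀ ZBar)}
    (hPH : PotHecke j 2 n P U L ι e t ψ)
    {U' : Subgroup (GK K)} {L' : Type} [Field L'] [NumberField L'] [Algebra K L']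
    {ι' : GK L' →* GK K}
    {e' : ℕ} {t' : Fin n → (L' →+* QBar) → ℕ} {ψ' : Fin n → (Ideal (𝓞 L') →*₀ ZBar)}
    (hPH' : PotHecke j 3 n P U' L' ι' e' t' ψ')
    (lam : HeightOneSpectrum (𝓞 E)) (h2 : ((2 : ℕ) : 𝓞 E) ∉ lam.asIdeal)
    (h3 : ((3 : ℕ) : 𝓞 E) ∉ lam.asIdeal) (h : SolRes 1 n P lam) : AbGal 1 n P lam := by
  classical
  obtain ⟨k, _, φ, ρ, hφ, hop, hun, hfr, hsol⟩ := h
  set kb := AlgebraicClosure k with hkb
  set i0 : k →+* kb := algebraMap k kb with hi0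
  have hkerE : RingHom.ker (i0.comp φ) = lam.asIdeal := by
    rw [← hφ]
    ext x
    rw [RingHom.mem_ker, RingHom.mem_ker, RingHom.comp_apply]
    exact map_eq_zero_iff i0 i0.injective
  set ρb : GK K →* GL (Fin n) kb := (Matrix.GeneralLinearGroup.map i0).comp ρ with hρb
  have hcoe : ∀ g, (ρb g : Matrix (Fin n) (Fin n) kb) = (ρ g : Matrix (Fin n) (Fin n) k).map i0 :=
    fun g => rfl
  have hkerb : ρ.ker ≤ ρb.ker := by
    intro g hg
    rw [MonoidHom.mem_ker] at hg ⊢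
    rw [hρb, MonoidHom.comp_apply, hg, map_one]
  obtain ⟨ρ', hk', hcp', hSA⟩ := all_SS n kb (GK K) ρb
  have hkk : ρ.ker ≤ ρ'.ker := hkerb.trans hk'
  have hop' : IsOpen (ρ'.ker : Set (GK K)) := Subgroup.isOpen_mono hkk hop
  have hfin' : Finite ρ'.range := fin_range ρ' hop'
  have hun' : UnrOut (1 * Ideal.absNorm lam.asIdeal) ρ'.ker := UnrOut.mono hun hkk
  have hfr' : ∀ v : HeightOneSpectrum (𝓞 K),
      ((Ideal.absNorm lam.asIdeal : ℕ) : 𝓞 K) ∉ v.asIdeal → ∀ σ, IsFrob v σ →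
      (ρ' σ : Matrix (Fin n) (Fin n) kb).charpoly = (P v).map (i0.comp φ) := by
    intro v hv σ hσ
    rw [hcp', hcoe, Matrix.charpoly_map, hfr v (one_not_mem v) hv σ hσ, Polynomial.map_map]
  obtain ⟨l, hl, hc⟩ := Pool.Agent.H825.ZO.ZL.char_pos lam (i0.comp φ) hkerE
  have hunN : ∀ N : ℕ, UnrOut (N * Ideal.absNorm lam.asIdeal) ρ'.ker := by
    intro N v hv σ hσ
    refine hun' v (fun h => hv ?_) σ hσ
    rw [one_mul] at h
    rw [Nat.cast_mul]
    exact v.asIdeal.mul_mem_left _ h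
  have hU : ∀ a ∈ U, ∀ b ∈ U, ρ' a * ρ' b = ρ' b * ρ' a := by
    have h1 := Pool.Agent.H500.ZO.all_UNI K E j 2 n P U L ι e t ψ le_rfl hPH lam kb (i0.comp φ) ρ'
      hkerE hop' (fun v _ hv σ hσ => hfr' v hv σ hσ) (hunN 2)
    have h4 := comm_of hl ρ' hfin' hSA ι (by rw [hPH.fld.range]; exact hPH.normal) h1
    rwa [hPH.fld.range] at h4
  have hU' : ∀ a ∈ U', ∀ b ∈ U', ρ' a * ρ' b = ρ' b * ρ' a := by
    have h1 := Pool.Agent.H500.ZO.all_UNI K E j 3 n P U' L' ι' e' t' ψ' (by norm_num) hPH' lam kb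
      (i0.comp φ) ρ' hkerE hop' (fun v _ hv σ hσ => hfr' v hv σ hσ) (hunN 3)
    have h4 := comm_of hl ρ' hfin' hSA ι' (by rw [hPH'.fld.range]; exact hPH'.normal) h1
    rwa [hPH'.fld.range] at h4
  have hUn := hPH.normal
  have hUn' := hPH'.normal
  -- `U U' = G`
  have hsup : U ⊔ U' = ⊤ := by
    refine top_of hK _ inferInstance (Subgroup.isOpen_mono le_sup_left hPH.isOpen) ?_ ?_
    · obtain ⟨r, hr⟩ := hPH.solv
      exact ⟨r, hr.trans le_sup_left⟩
    · intro v _ σ hσ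
      by_cases hv : ((2 : ℕ) : 𝓞 K) ∈ v.asIdeal
      · exact (le_sup_right : U' ≤ U ⊔ U') (hPH'.unr v (fun h => not_both v hv h) σ hσ)
      · exact (le_sup_left : U ≤ U ⊔ U') (hPH.unr v hv σ hσ)
  -- the elements which are central in the image
  set Z : Subgroup (GK K) := (Subgroup.center ρ'.range).comap ρ'.rangeRestrict with hZ
  have hZmem : ∀ g, g ∈ Z ↔ ∀ x, ρ' x * ρ' g = ρ' g * ρ' x := by
    intro g
    rw [hZ, Subgroup.mem_comap, Subgroup.mem_center_iff]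
    constructor
    · intro h x
      exact congrArg Subtype.val (h ⟨ρ' x, x, rfl⟩)
    · rintro h ⟨_, x, rfl⟩
      exact Subtype.ext (h x)
  have hle : U ⊓ U' ≤ Z := by
    intro g hg
    rw [hZmem]
    have h4 : U ⊔ U' ≤ (Subgroup.centralizer {ρ' g}).comap ρ' := by
      refine sup_le (fun x hx => ?_) (fun x hx => ?_)
      · rw [Subgroup.mem_comap, Subgroup.mem_centralizer_singleton_iff]
        exact hU x hx g hg.1
      · rw [Subgroup.mem_comap, Subgroup.mem_centralizer_singleton_iff]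
        exact hU' x hx g hg.2
    intro x
    have h5 := h4 (hsup ▸ Subgroup.mem_top x)
    rw [Subgroup.mem_comap, Subgroup.mem_centralizer_singleton_iff] at h5
    exact h5
  have hkZ : ρ'.ker ≤ Z := by
    intro g hg
    rw [hZmem]
    intro x
    rw [MonoidHom.mem_ker.1 hg, mul_one, one_mul]
  obtain ⟨l', f, hl', hlm, hf0, hlf⟩ := exists_char lam
  have hl2 : l' ≠ 2 := by
    rintro rfl
    exact h2 hlm
  have hl3 : l' ≠ 3 := by
    rintro rfl
    exact h3 hlm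
  have hZtop : Z = ⊤ := by
    refine top_of hK Z inferInstance (Subgroup.isOpen_mono hkZ hop') ?_ ?_
    · obtain ⟨r, hr⟩ := hPH.solv
      obtain ⟨r', hr'⟩ := hPH'.solv
      exact ⟨max r r', (le_inf ((derivedSeries_antitone _ (le_max_left r r')).trans hr)
        ((derivedSeries_antitone _ (le_max_right r r')).trans hr')).trans hle⟩
    · intro v _ σ hσ
      by_cases hv : ((1 * Ideal.absNorm lam.asIdeal : ℕ) : 𝓞 K) ∈ v.asIdeal
      · rw [one_mul, hlf, Nat.cast_pow] at hv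
        have hv' : (l' : 𝓞 K) ∈ v.asIdeal := v.isPrime.mem_of_pow_mem _ hv
        refine hle ⟨hPH.unr v (fun h => hl2 ?_) σ hσ, hPH'.unr v (fun h => hl3 ?_) σ hσ⟩
        · exact (Nat.prime_dvd_prime_iff_eq hl' Nat.prime_two).1 ((natCast_mem_iff_dvd hl' hv').1 h)
        · exact (Nat.prime_dvd_prime_iff_eq hl' Nat.prime_three).1
            ((natCast_mem_iff_dvd hl' hv').1 h)
      · exact hkZ (hun' v hv σ hσ)
  have hab : ∀ a ∈ (⊤ : Subgroup (GK K)), ∀ b ∈ (⊤ : Subgroup (GK K)),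
      ρ' a * ρ' b = ρ' b * ρ' a := by
    intro a _ b _
    exact (hZmem b).1 (hZtop ▸ Subgroup.mem_top b) a
  obtain ⟨Q, hQ⟩ := hSA ⊤ inferInstance hab
  set ρ2 : GK K →* GL (Fin n) kb := (MulAut.conj Q).toMonoidHom.comp ρ' with hρ2
  have hd : ∀ g, (ρ2 g : Matrix (Fin n) (Fin n) kb).IsDiag := fun g => hQ g (Subgroup.mem_top g)
  have hker2 : ρ'.ker ≤ ρ2.ker := by
    intro g hg
    rw [MonoidHom.mem_ker] at hg ⊢
    rw [hρ2, MonoidHom.comp_apply, hg, map_one]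
  have hkd : ∀ i, ρ'.ker ≤ (dch ρ2 hd i).ker := fun i => hker2.trans (dch_ker ρ2 hd i)
  refine ⟨kb, inferInstance, i0.comp φ, dch ρ2 hd, hkerE,
    fun i => Subgroup.isOpen_mono (hkd i) hop', fun i => UnrOut.mono hun' (hkd i), ?_⟩
  intro v hv hlv σ hσ
  rw [← hfr' v hlv σ hσ, ← dch_charpoly ρ2 hd σ]
  have h1 : (ρ2 σ : Matrix (Fin n) (Fin n) kb) = (Q : Matrix (Fin n) (Fin n) kb) *
      (ρ' σ : Matrix (Fin n) (Fin n) kb) * ((Q⁻¹ : GL (Fin n) kb) : Matrix (Fin n) (Fin n) kb) := rfl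
  rw [h1, Matrix.coe_units_inv]
  exact (Matrix.charpoly_units_conj (n := Fin n) (R := kb) Q
    (ρ' σ : Matrix (Fin n) (Fin n) kb)).symm

theorem mono_res {n N : ℕ} {P : HeightOneSpectrum (𝓞 K) → (𝓞 E)[X]}
    {lam : HeightOneSpectrum (𝓞 E)} (h : SolRes 1 n P lam) : SolRes N n P lam := by
  obtain ⟨k, _, φ, ρ, hφ, hop, hun, hfr, hsol⟩ := h
  refine ⟨k, inferInstance, φ, ρ, hφ, hop, fun v hv σ hσ => hun v (fun h => hv ?_) σ hσ,
    fun v _ hv σ hσ => hfr v (one_not_mem v) hv σ hσ, hsol⟩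
  rw [one_mul] at h
  rw [Nat.cast_mul]
  exact v.asIdeal.mul_mem_left _ h

/-- **the level one theorem** -/
theorem level_one (hK : NC1 K) (j : E →+* QBar) (n : ℕ) (P : HeightOneSpectrum (𝓞 K) → (𝓞 E)[X])
    (hP : PosUD (SolRes 1 n P)) :
    ∃ (t : Fin n → (K →+* QBar) → ℕ) (ψ : Fin n → (Ideal (𝓞 K) →*₀ ZBar)),
      (∀ i (𝔞 : Ideal (𝓞 K)), 𝔞 ≠ ⊥ →
        (ψ i 𝔞 ≠ 0 ↔ IsCoprime 𝔞 (Ideal.span {((1 : ℕ) : 𝓞 K)}))) ∧
      (∀ i (x : 𝓞 K), InRay 1 x → ψ i (Ideal.span {x}) = typB (t i) x) ∧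
      ∀ v : HeightOneSpectrum (𝓞 K), (P v).map (jz j) =
        ∏ i, (X - Polynomial.C (ψ i v.asIdeal)) := by
  classical
  obtain ⟨U, L, _, _, _, ι, e, t, ψ, hPH⟩ := solP j 2 n le_rfl P (hP.mono fun lam h => mono_res h)
  obtain ⟨U', L', _, _, _, ι', e', t', ψ', hPH'⟩ := solP j 3 n (by norm_num) P
    (hP.mono fun lam h => mono_res h)
  have h1 : PosUD (AbRes 1 n P) := by
    refine ((hP.diff (Pool.Agent.H500.Kum.dens_fin _ (Pool.Agent.H500.Kum.fin_mem (E := E)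
      (x := ((2 : ℕ) : 𝓞 E)) (by norm_num)))).diff (Pool.Agent.H500.Kum.dens_fin _
      (Pool.Agent.H500.Kum.fin_mem (E := E) (x := ((3 : ℕ) : 𝓞 E)) (by norm_num)))).mono ?_
    rintro lam ⟨⟨h1, h2⟩, h3⟩
    exact gal_res1 n P lam (ab_gal hK j n P hPH hPH' lam h2 h3 h1)
  obtain ⟨t, ψ, h2, h3, h4⟩ := main_of all_TExp all_TKD all_Split all_Cls all_TInt all_TChi
    all_TGlue all_Deg Pool.Agent.H415.SV.Emb.main j 1 n one_pos P h1
  exact ⟨t, ψ, h2, h3, fun v => h4 v (one_not_mem v)⟩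

end

end Pool.Agent.H500.LV
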