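import Pool.Agent.H500.LV.B
import Pool.Agent.H500.ME.All

set_option autoImplicit false
set_option linter.unusedSectionVars false

/-!
# Level one: `ℓ-adic` representations
-/

namespace Pool.Agent.H500.LV

open NumberField IsDedekindDomain Filter Topology Polynomial
open Pool.Agent.W401.Cheb (GK IsFrob IsInert dens)
open Pool.Agent.H500.HC
open Pool.Agent.H500.MW (PosUD)
open Pool.Agent.H500.R2 (UnrOut exists_char frob_at fin_range)
open Pool.Agent.H500.ZO (PotHecke SemiS)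
open Pool.Agent.H500.TH
open Pool.Agent.H500.ED
open Pool.Agent.H396.ME.MAT (chars_sum ent perm_diag)
open scoped commutatorElement

section
variable {K E : Type} [Field K] [NumberField K] [Field E] [NumberField E]

/-- the diagonal representation -/
def dg {G C : Type} [Group G] [Field C] {n : ℕ} (Φ : Fin n → (G →* Cˣ)) : G →* GL (Fin n) C :=
  MonoidHom.toHomUnits
    { toFun := fun g => Matrix.diagonal fun i => (Φ i g : C)
      map_one' := by
        rw [← Matrix.diagonal_one]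
        congr 1
        funext i
        rw [map_one, Units.val_one]
      map_mul' := fun a b => by
        rw [Matrix.diagonal_mul_diagonal]
        congr 1
        funext i
        rw [map_mul, Units.val_mul] }

theorem dg_coe {G C : Type} [Group G] [Field C] {n : ℕ} (Φ : Fin n → (G →* Cˣ)) (g : G) :
    (dg Φ g : Matrix (Fin n) (Fin n) C) = Matrix.diagonal fun i => (Φ i g : C) := rfl

/-- a semisimple representation with the traces of a diagonal one at the geometric Frobenius elements -/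
theorem iso_of (ℓ : ℕ) [hℓ : Fact ℓ.Prime] {n : ℕ} (Φ : Fin n → (GK K →* (PadicAlgCl ℓ)ˣ))
    (hΦ : ∀ i, Continuous fun g => (Φ i g : PadicAlgCl ℓ))
    (V : GK K →* GL (Fin n) (PadicAlgCl ℓ))
    (hVc : Continuous fun g => (V g : Matrix (Fin n) (Fin n) (PadicAlgCl ℓ))) (hVs : SemiS V)
    (h : ∀ᶠ v : HeightOneSpectrum (𝓞 K) in cofinite, ∀ σ, IsFrob v σ →
      (V σ⁻¹ : Matrix (Fin n) (Fin n) (PadicAlgCl ℓ)).trace = ∑ i, (Φ i σ⁻¹ : PadicAlgCl ℓ)) :
    ∃ Q : GL (Fin n) (PadicAlgCl ℓ), ∀ g,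
      (V g : Matrix (Fin n) (Fin n) (PadicAlgCl ℓ)) * (Q : Matrix (Fin n) (Fin n) (PadicAlgCl ℓ)) =
        (Q : Matrix (Fin n) (Fin n) (PadicAlgCl ℓ)) *
          Matrix.diagonal fun i => (Φ i g : PadicAlgCl ℓ) := by
  classical
  have htr : ∀ g : GK K, (V g : Matrix (Fin n) (Fin n) (PadicAlgCl ℓ)).trace =
      ∑ i, (Φ i g : PadicAlgCl ℓ) := by
    intro g
    by_contra hne
    set f : GK K → PadicAlgCl ℓ := fun g =>
      (V g⁻¹ : Matrix (Fin n) (Fin n) (PadicAlgCl ℓ)).trace - ∑ i, (Φ i g⁻¹ : PadicAlgCl ℓ) with hf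
    have hfc : Continuous f := ((hVc.comp continuous_inv).matrix_trace).sub
      (continuous_finsetSum _ fun i _ => (hΦ i).comp continuous_inv)
    have h0 : 0 < ‖f g⁻¹‖ := by
      rw [norm_pos_iff, hf]
      simp only [inv_inv]
      exact sub_ne_zero.2 hne
    obtain ⟨W, hWn, hWo, hW⟩ := Pool.Agent.H139.ZO.ABL.nhd f hfc g⁻¹ h0
    obtain ⟨v, σ, hB, -, hσ, hσW⟩ := Pool.Agent.H139.ZO.frob_ex W hWn hWo g⁻¹
      (B := {v | ¬ ∀ σ, IsFrob v σ →
        (V σ⁻¹ : Matrix (Fin n) (Fin n) (PadicAlgCl ℓ)).trace = ∑ i, (Φ i σ⁻¹ : PadicAlgCl ℓ)})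
      (Filter.eventually_cofinite.1 h) hℓ.out.pos
    have h1 := hW _ hσW
    rw [mul_inv_cancel_left] at h1
    have h2 : f σ = 0 := sub_eq_zero.2 (not_not.1 hB σ hσ)
    rw [h2, zero_sub, norm_neg] at h1
    exact lt_irrefl _ h1
  have hdt : ∀ g : GK K, (dg Φ g : Matrix (Fin n) (Fin n) (PadicAlgCl ℓ)).trace =
      ∑ i, (Φ i g : PadicAlgCl ℓ) := fun g => by rw [dg_coe, Matrix.trace_diagonal]
  have hcomm : ∀ g ∈ (⊤ : Subgroup (GK K)), ∀ h ∈ (⊤ : Subgroup (GK K)),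
      V g * V h = V h * V g := by
    intro g _ h' _
    have h1 : V ⁅g, h'⁆ = 1 := by
      refine one_of_trace V (dg Φ) hVs (fun x => by rw [htr, hdt]) ?_
      apply Units.ext
      rw [dg_coe, Units.val_one, ← Matrix.diagonal_one]
      congr 1
      funext i
      rw [map_commutatorElement, commutatorElement_eq_one_iff_mul_comm.2 (mul_comm _ _),
        Units.val_one]
    rwa [map_commutatorElement, commutatorElement_eq_one_iff_mul_comm] at h1
  obtain ⟨Q, hQ⟩ := Pool.Agent.H500.ME.all_SDG (GK K) ⊤ n (PadicAlgCl ℓ) V inferInstance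
    inferInstance hVs hcomm
  set D : GK K →* GL (Fin n) (PadicAlgCl ℓ) := (MulAut.conj Q⁻¹).toMonoidHom.comp V with hD
  have hDc : ∀ g, D g = Q⁻¹ * V g * Q := fun g => by
    rw [hD, MonoidHom.comp_apply]
    show Q⁻¹ * V g * (Q⁻¹)⁻¹ = _
    rw [inv_inv]
  have hDd : ∀ g, (D g : Matrix (Fin n) (Fin n) (PadicAlgCl ℓ)).IsDiag := fun g => by
    rw [hDc]
    exact hQ g (Subgroup.mem_top g)
  have hDt : ∀ g, (D g : Matrix (Fin n) (Fin n) (PadicAlgCl ℓ)).trace =
      (V g : Matrix (Fin n) (Fin n) (PadicAlgCl ℓ)).trace := by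
    intro g
    rw [hDc, Units.val_mul, Units.val_mul, Matrix.trace_mul_comm, ← mul_assoc, ← Units.val_mul,
      mul_inv_cancel, Units.val_one, one_mul]
  obtain ⟨π, hπ⟩ := chars_sum (ent D hDd) (fun i => (Units.coeHom (PadicAlgCl ℓ)).comp (Φ i))
    (fun x => by
      have h1 : ∑ i, ent D hDd i x = (D x : Matrix (Fin n) (Fin n) (PadicAlgCl ℓ)).trace := rfl
      rw [h1, hDt, htr]
      rfl)
  refine perm_diag (fun g => (V g : Matrix (Fin n) (Fin n) (PadicAlgCl ℓ))) Q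
    (fun i g => ent D hDd i g) (fun i g => (Φ i g : PadicAlgCl ℓ)) π (fun i => ?_) (fun g => ?_)
  · funext g
    exact DFunLike.congr_fun (hπ i) g
  · have h1 : (D g : Matrix (Fin n) (Fin n) (PadicAlgCl ℓ)) =
        Matrix.diagonal fun i => ent D hDd i g := (hDd g).diagonal_diag.symm
    have h2 : V g * Q = Q * D g := by
      rw [hDc]
      group
    have h3 := congrArg Units.val h2
    rw [Units.val_mul, Units.val_mul, h1] at h3
    exact h3

/-- **level one**, with the `ℓ-adic` representations -/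
theorem level_adic (hK : NC1 K) (j : E →+* QBar) (n : ℕ)
    (P : HeightOneSpectrum (𝓞 K) → (𝓞 E)[X]) (hP : PosUD (SolRes 1 n P)) :
    ∃ t : Fin n → (K →+* QBar) → ℕ,
      (∀ (v : HeightOneSpectrum (𝓞 K)) (x : 𝓞 K), TotPos x → v.asIdeal = Ideal.span {x} →
        (P v).map (jz j) = ∏ i, (X - Polynomial.C (typB (t i) x))) ∧
      ∀ (ℓ : ℕ) [Fact ℓ.Prime] (κ : QBar →+* PadicAlgCl ℓ),
        ∃ Φ : Fin n → (GK K →* (PadicAlgCl ℓ)ˣ),
          (∀ i, Continuous fun g => (Φ i g : PadicAlgCl ℓ)) ∧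
          (∀ (i : Fin n) (v : HeightOneSpectrum (𝓞 K)), (ℓ : 𝓞 K) ∉ v.asIdeal →
            (∀ τ, IsInert v τ → Φ i τ = 1) ∧ ∀ σ, IsFrob v σ → ∀ x : 𝓞 K, TotPos x →
              v.asIdeal = Ideal.span {x} → (Φ i σ⁻¹ : PadicAlgCl ℓ) = κ (typB (t i) x : ZBar)) ∧
          ∀ V : GK K →* GL (Fin n) (PadicAlgCl ℓ),
            Continuous (fun g => (V g : Matrix (Fin n) (Fin n) (PadicAlgCl ℓ))) → SemiS V →
            (∀ᶠ v : HeightOneSpectrum (𝓞 K) in cofinite, ∀ σ, IsFrob v σ →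
              (V σ⁻¹ : Matrix (Fin n) (Fin n) (PadicAlgCl ℓ)).charpoly =
                (P v).map ((κ.comp j).comp (algebraMap (𝓞 E) E))) →
            ∃ Q : GL (Fin n) (PadicAlgCl ℓ), ∀ g,
              (V g : Matrix (Fin n) (Fin n) (PadicAlgCl ℓ)) *
                (Q : Matrix (Fin n) (Fin n) (PadicAlgCl ℓ)) =
              (Q : Matrix (Fin n) (Fin n) (PadicAlgCl ℓ)) *
                Matrix.diagonal fun i => (Φ i g : PadicAlgCl ℓ) := by
  classical
  obtain ⟨t, ψ, h1, h2, h3⟩ := level_one hK j n P hP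
  refine ⟨t, fun v x hx hv => ?_, fun ℓ hℓ κ => ?_⟩
  · rw [h3 v]
    refine Finset.prod_congr rfl fun i _ => ?_
    rw [hv, h2 i x (inRay_one hx hv)]
  · have h4 := fun i => Pool.Agent.H500.ED.all_AVA K 1 1 (t i) (ψ i) one_pos dvd_rfl
      ⟨h1 i, h2 i⟩ ℓ κ
    choose Ψ hΨc hΨ using h4
    have hΦ : ∀ (i : Fin n) (v : HeightOneSpectrum (𝓞 K)), (ℓ : 𝓞 K) ∉ v.asIdeal →
        ∀ σ, IsFrob v σ → ((Ψ i)⁻¹ σ⁻¹ : (PadicAlgCl ℓ)ˣ) = Ψ i σ := by
      intro i v _ σ _
      rw [MonoidHom.inv_apply, map_inv, inv_inv]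
    refine ⟨fun i => (Ψ i)⁻¹, fun i => ?_, fun i v hv => ⟨fun τ hτ => ?_, fun σ hσ x hx hvx => ?_⟩,
      fun V hVc hVs hV => ?_⟩
    · have h5 : (fun g => (((Ψ i)⁻¹ g : (PadicAlgCl ℓ)ˣ) : PadicAlgCl ℓ)) =
          fun g : GK K => (Ψ i g⁻¹ : PadicAlgCl ℓ) := by
        funext g
        rw [MonoidHom.inv_apply, map_inv]
      rw [h5]
      exact (hΨc i).comp continuous_inv
    · rw [MonoidHom.inv_apply, (hΨ i v (one_not_mem v) hv).1 τ hτ, inv_one]
    · rw [hΦ i v hv σ hσ, (hΨ i v (one_not_mem v) hv).2 σ hσ, hvx, h2 i x (inRay_one hx hvx)]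
    · refine iso_of ℓ (fun i => (Ψ i)⁻¹) (fun i => ?_) V hVc hVs ?_
      · have h5 : (fun g => (((Ψ i)⁻¹ g : (PadicAlgCl ℓ)ˣ) : PadicAlgCl ℓ)) =
            fun g : GK K => (Ψ i g⁻¹ : PadicAlgCl ℓ) := by
          funext g
          rw [MonoidHom.inv_apply, map_inv]
        rw [h5]
        exact (hΨc i).comp continuous_inv
      · filter_upwards [hV, Pool.Agent.H500.ME.ev_not_mem (K := K) hℓ.out.pos] with v hv hvℓ σ hσ
        have h6 : (P v).map ((κ.comp j).comp (algebraMap (𝓞 E) E)) =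
            ∏ i, (X - Polynomial.C (Ψ i σ : PadicAlgCl ℓ)) := by
          have h7 : (κ.comp (algebraMap ZBar QBar)).comp (jz j) =
              (κ.comp j).comp (algebraMap (𝓞 E) E) := rfl
          rw [← h7, ← Polynomial.map_map, h3 v, Polynomial.map_prod]
          refine Finset.prod_congr rfl fun i _ => ?_
          rw [Polynomial.map_sub, Polynomial.map_X, Polynomial.map_C,
            (hΨ i v (one_not_mem v) hvℓ).2 σ hσ]
          rfl
        rw [Matrix.trace_eq_neg_charpoly_nextCoeff, hv σ hσ, h6, prod_X_sub_C_nextCoeff, neg_neg]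
        exact Finset.sum_congr rfl fun i _ => by rw [hΦ i v hvℓ σ hσ]

end

end Pool.Agent.H500.LV
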