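import Pool.Agent.H500.LV.C

set_option autoImplicit false
set_option linter.unusedSectionVars false

/-!
# Level one: parallel types
-/

namespace Pool.Agent.H500.LV

open NumberField IsDedekindDomain Filter Topology Polynomial
open Pool.Agent.W401.Cheb (GK IsFrob IsInert dens)
open Pool.Agent.H500.HC
open Pool.Agent.H500.TH
open Pool.Agent.H500.ME (IsCyc)

section
variable {K : Type} [Field K] [NumberField K]

/-- the norm of a totally positive element is positive -/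
theorem norm_pos' {x : 𝓞 K} (hx : TotPos x) (h0 : x ≠ 0) :
    (Algebra.norm ℚ (x : K)) = |Algebra.norm ℚ (x : K)| := by
  classical
  have hxK : (x : K) ≠ 0 := by
    intro h
    exact h0 (RingOfIntegers.ext h)
  have h1 : ∏ φ : K →+* ℂ, (φ (x : K) / (‖φ (x : K)‖ : ℂ)) = 1 := by
    refine Finset.prod_involution (fun φ _ => ComplexEmbedding.conjugate φ) ?_ ?_ ?_ ?_
    · intro φ _
      have h2 : φ (x : K) ≠ 0 := (map_ne_zero φ).2 hxK
      have h3 : (‖φ (x : K)‖ : ℂ) ≠ 0 := by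
        rw [Complex.ofReal_ne_zero]
        exact norm_ne_zero_iff.2 h2
      rw [ComplexEmbedding.conjugate_coe_eq, Complex.norm_conj, div_mul_div_comm, Complex.mul_conj,
        Complex.normSq_eq_norm_sq]
      push_cast
      rw [← sq]
      exact div_self (pow_ne_zero 2 h3)
    · intro φ _ hne heq
      apply hne
      have hr : ComplexEmbedding.IsReal φ := heq
      have h2 := hr.coe_embedding_apply (x : K)
      have h3 := hx hr.embedding
      rw [← h2, Complex.norm_real, Real.norm_of_nonneg h3.le]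
      exact div_self (by exact_mod_cast h3.ne')
    · intro φ _
      exact Finset.mem_univ _
    · intro φ _
      exact star_star φ
  have h2 : ∏ φ : K →+* ℂ, φ (x : K) = ∏ φ : K →+* ℂ, (‖φ (x : K)‖ : ℂ) := by
    rw [Finset.prod_div_distrib] at h1
    have h3 : ∏ φ : K →+* ℂ, (‖φ (x : K)‖ : ℂ) ≠ 0 := by
      refine Finset.prod_ne_zero_iff.2 fun φ _ => ?_
      rw [Complex.ofReal_ne_zero]
      exact norm_ne_zero_iff.2 ((map_ne_zero φ).2 hxK)
    exact (div_eq_one_iff_eq h3).1 h1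
  have h3 : ∏ φ : K →+* ℂ, φ (x : K) = ((Algebra.norm ℚ (x : K) : ℚ) : ℂ) := by
    have h4 := Algebra.norm_eq_prod_embeddings ℚ ℂ (x : K)
    have h5 : (algebraMap ℚ ℂ) (Algebra.norm ℚ (x : K)) = ((Algebra.norm ℚ (x : K) : ℚ) : ℂ) := rfl
    rw [← h5, h4]
    exact Fintype.prod_equiv (RingHom.equivRatAlgHom K ℂ) _ _ fun φ => rfl
  have h4 : (∏ φ : K →+* ℂ, (‖φ (x : K)‖ : ℂ)) = ((|Algebra.norm ℚ (x : K)| : ℚ) : ℂ) := by
    have h5 := congrArg norm h3
    rw [norm_prod] at h5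
    have h6 : ‖((Algebra.norm ℚ (x : K) : ℚ) : ℂ)‖ = ((|Algebra.norm ℚ (x : K)| : ℚ) : ℝ) := by
      rw [Rat.cast_abs]
      exact Complex.norm_ratCast _
    rw [h6] at h5
    have h7 := congrArg Complex.ofReal h5
    rw [Complex.ofReal_prod, Complex.ofReal_ratCast] at h7
    exact h7
  have h5 : ((Algebra.norm ℚ (x : K) : ℚ) : ℂ) = ((|Algebra.norm ℚ (x : K)| : ℚ) : ℂ) := by
    rw [← h3, h2, h4]
  exact_mod_cast h5

/-- parallel types -/
theorem typB_par {x : 𝓞 K} (hx : TotPos x) {v : HeightOneSpectrum (𝓞 K)}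
    (hv : v.asIdeal = Ideal.span {x}) {t : (K →+* QBar) → ℕ} {m : ℕ} (ht : ∀ σ, t σ = m) :
    typB t x = ((Ideal.absNorm v.asIdeal : ℕ) : ZBar) ^ m := by
  classical
  have h0 : x ≠ 0 := by
    rintro rfl
    apply v.ne_bot
    rw [hv, Ideal.span_singleton_eq_bot]
  unfold typB
  simp only [ht]
  rw [Finset.prod_pow]
  congr 1
  apply RingOfIntegers.ext
  have h1 : ((∏ σ : K →+* QBar, RingOfIntegers.mapRingHom σ x : ZBar) : QBar) =
      ∏ σ : K →+* QBar, σ (x : K) := by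
    show algebraMap ZBar QBar (∏ σ : K →+* QBar, RingOfIntegers.mapRingHom σ x) = _
    rw [map_prod]
    rfl
  have h2 : ∏ σ : K →+* QBar, σ (x : K) = algebraMap ℚ QBar (Algebra.norm ℚ (x : K)) := by
    rw [Algebra.norm_eq_prod_embeddings ℚ QBar (x : K)]
    exact Fintype.prod_equiv (RingHom.equivRatAlgHom K QBar) _ _ fun φ => rfl
  have h3 : (Algebra.norm ℚ (x : K)) = ((Ideal.absNorm v.asIdeal : ℕ) : ℚ) := by
    rw [norm_pos' hx h0, hv, Ideal.absNorm_span_singleton, ← Algebra.coe_norm_int]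
    rw [← Int.cast_abs, Int.abs_eq_natAbs]
    rfl
  rw [h1, h2, h3, map_natCast]
  exact (map_natCast (algebraMap ZBar QBar) _).symm

/-- the `ℓ-adic` characters of parallel types are powers of the cyclotomic character -/
theorem cyc_of {ℓ : ℕ} [hℓ : Fact ℓ.Prime] (hK : NC1 K) (κ : QBar →+* PadicAlgCl ℓ)
    {t : (K →+* QBar) → ℕ} {m : ℕ} (ht : ∀ σ, t σ = m) (Φ χ : GK K →* (PadicAlgCl ℓ)ˣ)
    (hΦc : Continuous fun g => (Φ g : PadicAlgCl ℓ))
    (hΦ : ∀ v : HeightOneSpectrum (𝓞 K), (ℓ : 𝓞 K) ∉ v.asIdeal → ∀ σ, IsFrob v σ →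
      ∀ x : 𝓞 K, TotPos x → v.asIdeal = Ideal.span {x} →
        (Φ σ⁻¹ : PadicAlgCl ℓ) = κ (typB t x : ZBar))
    (hχ : IsCyc ℓ χ) (g : GK K) : (Φ g : PadicAlgCl ℓ) = (χ g : PadicAlgCl ℓ)⁻¹ ^ m := by
  have h1 : Φ⁻¹ = (powMonoidHom m).comp χ := by
    refine Pool.Agent.H500.ED.hom_eq (L := K) Φ⁻¹ ((powMonoidHom m).comp χ) ?_ ?_ hℓ.out.pos ?_
    · have h5 : (fun g => ((Φ⁻¹ g : (PadicAlgCl ℓ)ˣ) : PadicAlgCl ℓ)) =
          fun g : GK K => (Φ g⁻¹ : PadicAlgCl ℓ) := by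
        funext g
        rw [MonoidHom.inv_apply, map_inv]
      rw [h5]
      exact hΦc.comp continuous_inv
    · exact hχ.cont.pow m
    · intro v hv s hs
      obtain ⟨x, hx, hvx⟩ := hK v
      have h2 := hΦ v hv s hs x hx hvx
      rw [MonoidHom.inv_apply, ← map_inv, h2, typB_par hx hvx ht]
      show κ ((((Ideal.absNorm v.asIdeal : ℕ) : ZBar) ^ m : ZBar) : QBar) = (χ s : PadicAlgCl ℓ) ^ m
      rw [hχ.frob v hv s hs]
      push_cast
      rw [map_pow, map_natCast]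
  have h2 := DFunLike.congr_fun h1 g⁻¹
  rw [MonoidHom.inv_apply, map_inv, inv_inv, MonoidHom.comp_apply, map_inv] at h2
  rw [h2]
  show ((((χ g)⁻¹ : (PadicAlgCl ℓ)ˣ) ^ m : (PadicAlgCl ℓ)ˣ) : PadicAlgCl ℓ) = _
  rw [Units.val_pow_eq_pow_val, Units.val_inv_eq_inv_val]

end

end Pool.Agent.H500.LV
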