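import Pool.Agent.H500.ME.All
import Pool.Agent.H500.ME.Ram

set_option autoImplicit false
set_option linter.unusedSectionVars false

/-!
# From the edge to sums over the places of norm at most `x`

If `F` is bounded and `∑ F(v) (N v)^(-s) = r log(1/(s-1)) + c + o(1)` then
`∑_{N v ≤ x} F(v) / N v = r log log x + O(1)`.
-/

namespace Pool.Agent.H500.LV

open NumberField IsDedekindDomain Filter Topology
open Pool.Agent.H500.ME

section
variable {K : Type} [Field K] [NumberField K]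

/-- `1 / log x` -/
theorem tend_delta : Tendsto (fun x : ℕ => (Real.log x)⁻¹) atTop (𝓝[>] 0) := by
  have h1 : Tendsto (fun x : ℕ => Real.log x) atTop atTop :=
    Real.tendsto_log_atTop.comp tendsto_natCast_atTop_atTop
  exact tendsto_inv_atTop_nhdsGT_zero.comp h1

/-- the elementary inequality -/
theorem elem {L y t : ℝ} (hL : 0 < L) (ht : t = Real.exp (-y / L)) (hy : 0 < y) :
    |(if y ≤ L then (1 : ℝ) else 0) - t| ≤ 3 * (t * (1 - t)) := by
  have ht0 : 0 < t := by rw [ht]; exact Real.exp_pos _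
  have ht1 : t < 1 := by
    rw [ht, Real.exp_lt_one_iff]
    exact div_neg_of_neg_of_pos (by linarith) hL
  have he := Real.exp_one_lt_d9
  have he2 := Real.exp_one_gt_d9
  have hem : Real.exp (-1) = (Real.exp 1)⁻¹ := Real.exp_neg 1
  have hpos : 0 < Real.exp 1 := Real.exp_pos 1
  split_ifs with h
  · have h1 : Real.exp (-1) ≤ t := by
      rw [ht]
      apply Real.exp_le_exp.2
      rw [le_div_iff₀ hL]
      linarith
    have h2 : 1 / 3 ≤ t := by
      refine le_trans ?_ h1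
      rw [hem, one_div]
      exact inv_anti₀ hpos (by linarith)
    rw [abs_of_pos (by linarith)]
    nlinarith
  · push Not at h
    have h1 : t ≤ Real.exp (-1) := by
      rw [ht]
      apply Real.exp_le_exp.2
      rw [div_le_iff₀ hL]
      linarith
    have h2 : t ≤ 1 / 2 := by
      refine h1.trans ?_
      rw [hem, one_div]
      exact inv_anti₀ (by norm_num) (by linarith)
    rw [zero_sub, abs_neg, abs_of_pos ht0]
    nlinarith

/-- **sums over the places of norm at most `x`** -/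
theorem mertens_of {F : HeightOneSpectrum (𝓞 K) → ℂ} {r : ℂ} (h : MV F r) :
    ∃ C : ℝ, ∀ᶠ x : ℕ in atTop,
      ‖∑ v ∈ pl K x, F v / (Ideal.absNorm v.asIdeal : ℂ) -
        r * ((Real.log (Real.log x) : ℝ) : ℂ)‖ ≤ C := by
  classical
  obtain ⟨B0, hB0⟩ := h.bdd
  set B : ℝ := max B0 0 with hBd
  have hB : ∀ v, ‖F v‖ ≤ B := fun v => (hB0 v).trans (le_max_left _ _)
  have hBn : 0 ≤ B := le_max_right _ _
  obtain ⟨c, hc⟩ := h.edge
  obtain ⟨c1, hc1⟩ := (all_MV1 K).edge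
  have hδ := tend_delta
  have hs1 : Tendsto (fun x : ℕ => 1 + (Real.log x)⁻¹) atTop (𝓝[>] 1) := by
    refine tendsto_nhdsWithin_iff.2 ⟨?_, ?_⟩
    · have h1 := (tendsto_const_nhds (x := (1 : ℝ))).add
        (hδ.mono_right nhdsWithin_le_nhds)
      rwa [add_zero] at h1
    · filter_upwards [hδ.eventually self_mem_nhdsWithin] with x hx
      have : 0 < (Real.log x)⁻¹ := hx
      exact Set.mem_Ioi.2 (by linarith)
  have hs2 : Tendsto (fun x : ℕ => 1 + 2 * (Real.log x)⁻¹) atTop (𝓝[>] 1) := by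
    refine tendsto_nhdsWithin_iff.2 ⟨?_, ?_⟩
    · have h1 := (tendsto_const_nhds (x := (1 : ℝ))).add
        ((hδ.mono_right nhdsWithin_le_nhds).const_mul 2)
      rwa [mul_zero, add_zero] at h1
    · filter_upwards [hδ.eventually self_mem_nhdsWithin] with x hx
      have : 0 < (Real.log x)⁻¹ := hx
      exact Set.mem_Ioi.2 (by linarith)
  have e1 := ((hc.comp hs1).norm).eventually (gt_mem_nhds (lt_add_one ‖c‖))
  have e2 := ((hc1.comp hs1).norm).eventually (gt_mem_nhds (lt_add_one ‖c1‖))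
  have e3 := ((hc1.comp hs2).norm).eventually (gt_mem_nhds (lt_add_one ‖c1‖))
  refine ⟨(‖c‖ + 1) + 3 * B * ((‖c1‖ + 1) + (‖c1‖ + 1) + Real.log 2), ?_⟩
  filter_upwards [e1, e2, e3, eventually_ge_atTop 3] with x h1 h2 h3 hx
  have hx3 : (3 : ℝ) ≤ x := by exact_mod_cast hx
  set L : ℝ := Real.log x with hLd
  have hL : 0 < L := Real.log_pos (by linarith)
  have hLi : 0 < L⁻¹ := inv_pos.2 hL
  simp only [Function.comp_apply] at h1 h2 h3
  rw [← hLd] at h1 h2 h3
  have hq : ∀ v : HeightOneSpectrum (𝓞 K), (1 : ℝ) < (Ideal.absNorm v.asIdeal : ℝ) := fun v => by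
    exact_mod_cast Pool.Agent.H500.ME.one_lt_norm v
  have hw1 : ∀ v : HeightOneSpectrum (𝓞 K), (Ideal.absNorm v.asIdeal : ℝ) ^ (-(1 + L⁻¹)) =
      (Ideal.absNorm v.asIdeal : ℝ)⁻¹ * Real.exp (-Real.log (Ideal.absNorm v.asIdeal) / L) := by
    intro v
    have h0 : (0 : ℝ) < (Ideal.absNorm v.asIdeal : ℝ) := by linarith [hq v]
    rw [neg_add, Real.rpow_add h0, Real.rpow_neg_one, Real.rpow_def_of_pos h0]
    congr 2
    ring
  have hw2 : ∀ v : HeightOneSpectrum (𝓞 K), (Ideal.absNorm v.asIdeal : ℝ) ^ (-(1 + 2 * L⁻¹)) =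
      (Ideal.absNorm v.asIdeal : ℝ)⁻¹ * (Real.exp (-Real.log (Ideal.absNorm v.asIdeal) / L) *
        Real.exp (-Real.log (Ideal.absNorm v.asIdeal) / L)) := by
    intro v
    have h0 : (0 : ℝ) < (Ideal.absNorm v.asIdeal : ℝ) := by linarith [hq v]
    rw [neg_add, Real.rpow_add h0, Real.rpow_neg_one, Real.rpow_def_of_pos h0, ← Real.exp_add]
    congr 2
    ring
  have hS1 := Pool.Agent.H921R2.TatePole.nm_summable (K := K) (x := 1 + L⁻¹) (by linarith)
  have hS2 := Pool.Agent.H921R2.TatePole.nm_summable (K := K) (x := 1 + 2 * L⁻¹) (by linarith)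
  set g : HeightOneSpectrum (𝓞 K) → ℝ := fun v =>
    (Ideal.absNorm v.asIdeal : ℝ) ^ (-(1 + L⁻¹)) - (Ideal.absNorm v.asIdeal : ℝ) ^ (-(1 + 2 * L⁻¹))
    with hg
  set H : ℝ := (∑' v : HeightOneSpectrum (𝓞 K), (Ideal.absNorm v.asIdeal : ℝ) ^ (-(1 + L⁻¹))) -
    ∑' v : HeightOneSpectrum (𝓞 K), (Ideal.absNorm v.asIdeal : ℝ) ^ (-(1 + 2 * L⁻¹)) with hH
  have hgs : HasSum g H := hS1.hasSum.sub hS2.hasSum
  -- `H` is bounded
  have hHb : H ≤ (‖c1‖ + 1) + (‖c1‖ + 1) + Real.log 2 := by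
    have e4 : ∀ s : ℝ, (∑' v : HeightOneSpectrum (𝓞 K),
        (1 : ℂ) * (((Ideal.absNorm v.asIdeal : ℝ) ^ (-s) : ℝ) : ℂ)) =
        ((∑' v : HeightOneSpectrum (𝓞 K), (Ideal.absNorm v.asIdeal : ℝ) ^ (-s) : ℝ) : ℂ) := by
      intro s
      rw [Complex.ofReal_tsum]
      exact tsum_congr fun v => one_mul _
    rw [e4, one_mul, ← Complex.ofReal_add, Complex.norm_real] at h2 h3
    have h4 := (abs_lt.1 (Real.norm_eq_abs _ ▸ h2)).2
    have h5 := (abs_lt.1 (Real.norm_eq_abs _ ▸ h3)).1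
    have h6 : Real.log (1 + 2 * L⁻¹ - 1) = Real.log 2 + Real.log (1 + L⁻¹ - 1) := by
      rw [add_sub_cancel_left, add_sub_cancel_left, Real.log_mul (by norm_num) hLi.ne']
    rw [hH]
    linarith
  -- the difference
  set a : HeightOneSpectrum (𝓞 K) → ℂ := fun v =>
    if Ideal.absNorm v.asIdeal ≤ x then F v / (Ideal.absNorm v.asIdeal : ℂ) else 0 with ha
  set b : HeightOneSpectrum (𝓞 K) → ℂ := fun v =>
    F v * (((Ideal.absNorm v.asIdeal : ℝ) ^ (-(1 + L⁻¹)) : ℝ) : ℂ) with hb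
  have hmem : ∀ v : HeightOneSpectrum (𝓞 K), v ∈ pl K x ↔ Ideal.absNorm v.asIdeal ≤ x := by
    intro v
    unfold pl
    rw [Set.Finite.mem_toFinset]
    rfl
  have ha0 : ∀ v ∉ pl K x, a v = 0 := fun v hv => if_neg fun h' => hv ((hmem v).2 h')
  have hsa : Summable a := summable_of_ne_finset_zero ha0
  have hsb : Summable b := Pool.Agent.H263.ME.MVB.summ h.bdd (by linarith)
  have hta : ∑' v, a v = ∑ v ∈ pl K x, F v / (Ideal.absNorm v.asIdeal : ℂ) := by
    rw [tsum_eq_sum ha0]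
    exact Finset.sum_congr rfl fun v hv => if_pos ((hmem v).1 hv)
  have hab : ‖∑' v, (a v - b v)‖ ≤ 3 * B * H := by
    refine tsum_of_norm_bounded (hgs.mul_left (3 * B)) fun v => ?_
    have h0 : (0 : ℝ) < (Ideal.absNorm v.asIdeal : ℝ) := by linarith [hq v]
    set t : ℝ := Real.exp (-Real.log (Ideal.absNorm v.asIdeal) / L) with ht
    have h4 := elem hL ht (Real.log_pos (hq v))
    have h5 : (Real.log (Ideal.absNorm v.asIdeal) ≤ L) ↔ Ideal.absNorm v.asIdeal ≤ x := by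
      rw [hLd, Real.log_le_log_iff h0 (by linarith)]
      exact Nat.cast_le
    have h6 : a v - b v = F v * (((Ideal.absNorm v.asIdeal : ℝ)⁻¹ *
        ((if Real.log (Ideal.absNorm v.asIdeal) ≤ L then (1 : ℝ) else 0) - t) : ℝ) : ℂ) := by
      rw [ha, hb]
      simp only
      rw [hw1 v, ← ht]
      by_cases h7 : Ideal.absNorm v.asIdeal ≤ x
      · rw [if_pos h7, if_pos (h5.2 h7)]
        push_cast
        ring
      · rw [if_neg h7, if_neg fun h8 => h7 (h5.1 h8)]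
        push_cast
        ring
    have h7 : g v = (Ideal.absNorm v.asIdeal : ℝ)⁻¹ * (t * (1 - t)) := by
      rw [hg]
      simp only
      rw [hw1 v, hw2 v, ← ht]
      ring
    rw [h6, norm_mul, Complex.norm_real, norm_mul, Real.norm_of_nonneg (inv_pos.2 h0).le,
      Real.norm_eq_abs, h7]
    calc ‖F v‖ * ((Ideal.absNorm v.asIdeal : ℝ)⁻¹ *
          |(if Real.log (Ideal.absNorm v.asIdeal) ≤ L then (1 : ℝ) else 0) - t|)
        ≤ B * ((Ideal.absNorm v.asIdeal : ℝ)⁻¹ * (3 * (t * (1 - t)))) := by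
          refine mul_le_mul (hB v) (mul_le_mul_of_nonneg_left h4 (inv_pos.2 h0).le) ?_ hBn
          exact mul_nonneg (inv_pos.2 h0).le (abs_nonneg _)
      _ = 3 * B * ((Ideal.absNorm v.asIdeal : ℝ)⁻¹ * (t * (1 - t))) := by ring
  rw [hsa.tsum_sub hsb, hta] at hab
  have h8 : ∑ v ∈ pl K x, F v / (Ideal.absNorm v.asIdeal : ℂ) -
      r * ((Real.log (Real.log x) : ℝ) : ℂ) =
      (∑ v ∈ pl K x, F v / (Ideal.absNorm v.asIdeal : ℂ) - ∑' v, b v) +
      ((∑' v, b v) + r * ((Real.log (1 + L⁻¹ - 1) : ℝ) : ℂ)) := by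
    rw [add_sub_cancel_left, Real.log_inv]
    push_cast
    ring
  rw [h8]
  refine (norm_add_le _ _).trans ?_
  have h9 : 3 * B * H ≤ 3 * B * ((‖c1‖ + 1) + (‖c1‖ + 1) + Real.log 2) :=
    mul_le_mul_of_nonneg_left hHb (by positivity)
  have h10 : ‖(∑' v, b v) + r * ((Real.log (1 + L⁻¹ - 1) : ℝ) : ℂ)‖ < ‖c‖ + 1 := h1
  linarith

end

end Pool.Agent.H500.LV
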