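import Pool.Agent.H500.LV.Sel

set_option autoImplicit false
set_option linter.unusedSectionVars false

/-!
# Orthogonality of the pieces of one system
-/

namespace Pool.Agent.H500.LV

open NumberField IsDedekindDomain Filter Topology Polynomial
open Pool.Agent.W401.Cheb (GK IsFrob IsInert dens)
open Pool.Agent.H500.MW (PosUD)
open Pool.Agent.H500.TH (SolRes)
open Pool.Agent.H500.ZO (SemiS)
open Pool.Agent.H500.ME
open scoped Kronecker

section
variable {G C : Type} [Group G] [Field C] {n m m' : ℕ}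

/-- `W` is a constituent of `ρ`: there is an injective intertwining map from `W` to `ρ` -/
def Sub (ρ : G →* GL (Fin n) C) (W : G →* GL (Fin m) C) : Prop :=
  ∃ S : Matrix (Fin n) (Fin m) C, (∀ x : Fin m → C, S.mulVec x = 0 → x = 0) ∧
    ∀ g, (ρ g : Matrix (Fin n) (Fin n) C) * S = S * (W g : Matrix (Fin m) (Fin m) C)

/-- isomorphic representations -/
def Iso (W : G →* GL (Fin m) C) (W' : G →* GL (Fin m') C) : Prop :=
  ∃ (A : Matrix (Fin m) (Fin m') C) (B : Matrix (Fin m') (Fin m) C), A * B = 1 ∧ B * A = 1 ∧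
    ∀ g, (W g : Matrix (Fin m) (Fin m) C) * A = A * (W' g : Matrix (Fin m') (Fin m') C)

theorem toMat {a b : ℕ} (f : (Fin a → C) →ₗ[C] (Fin b → C)) (x : Fin a → C) :
    (LinearMap.toMatrix' f).mulVec x = f x := by
  rw [← Matrix.toLin'_apply, Matrix.toLin'_toMatrix']

theorem mat_ext {a b : ℕ} {A B : Matrix (Fin a) (Fin b) C} (h : ∀ x, A.mulVec x = B.mulVec x) :
    A = B := Matrix.ext_of_mulVec_single fun _ => h _

/-- a constituent of a semisimple representation is a direct summand -/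
theorem summand (ρ : G →* GL (Fin n) C) (hρ : SemiS ρ) (W : G →* GL (Fin m) C)
    (S : Matrix (Fin n) (Fin m) C) (hS : ∀ x : Fin m → C, S.mulVec x = 0 → x = 0)
    (hSW : ∀ g, (ρ g : Matrix (Fin n) (Fin n) C) * S = S * (W g : Matrix (Fin m) (Fin m) C)) :
    ∃ R : Matrix (Fin m) (Fin n) C, R * S = 1 ∧
      ∀ g, R * (ρ g : Matrix (Fin n) (Fin n) C) = (W g : Matrix (Fin m) (Fin m) C) * R := by
  classical
  set f : (Fin m → C) →ₗ[C] (Fin n → C) := Matrix.toLin' S with hf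
  have hfa : ∀ x, f x = S.mulVec x := fun x => by rw [hf, Matrix.toLin'_apply]
  have hinj : Function.Injective f := by
    rw [injective_iff_map_eq_zero]
    intro x hx
    exact hS x (by rw [← hfa]; exact hx)
  have hY : ∀ g, ∀ u ∈ LinearMap.range f, (ρ g : Matrix (Fin n) (Fin n) C).mulVec u ∈
      LinearMap.range f := by
    rintro g u ⟨x, rfl⟩
    refine ⟨(W g : Matrix (Fin m) (Fin m) C).mulVec x, ?_⟩
    rw [hfa, hfa, Matrix.mulVec_mulVec, Matrix.mulVec_mulVec, hSW g]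
  obtain ⟨Z, hZ, hc⟩ := hρ (LinearMap.range f) hY
  let p : (Fin n → C) →ₗ[C] (Fin n → C) := Submodule.projection (LinearMap.range f) Z hc
  have hpY : ∀ u ∈ LinearMap.range f, p u = u :=
    fun u hu => Submodule.projection_apply_left hc ⟨u, hu⟩
  have hpZ : ∀ u ∈ Z, p u = 0 := fun u hu => Submodule.projection_apply_right hc ⟨u, hu⟩
  obtain ⟨r, hr⟩ := f.exists_leftInverse_of_injective (LinearMap.ker_eq_bot.2 hinj)
  have hrf : ∀ x, r (f x) = x := fun x => LinearMap.congr_fun hr x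
  refine ⟨LinearMap.toMatrix' (r.comp p), ?_, fun g => ?_⟩
  · apply mat_ext
    intro x
    rw [← Matrix.mulVec_mulVec, toMat, ← hfa, LinearMap.comp_apply, hpY _ ⟨x, rfl⟩, hrf,
      Matrix.one_mulVec]
  · apply mat_ext
    intro x
    rw [← Matrix.mulVec_mulVec, ← Matrix.mulVec_mulVec, toMat, toMat]
    obtain ⟨y, hy, z, hz, hyz⟩ := Submodule.mem_sup.1
      (show x ∈ LinearMap.range f ⊔ Z by rw [hc.sup_eq_top]; trivial)
    obtain ⟨t, rfl⟩ := hy
    rw [← hyz, Matrix.mulVec_add, map_add, map_add, LinearMap.comp_apply, LinearMap.comp_apply,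
      LinearMap.comp_apply, LinearMap.comp_apply, hpZ _ hz, hpZ _ (hZ g z hz), map_zero, add_zero,
      add_zero, hpY _ (hY g _ ⟨t, rfl⟩), hpY _ ⟨t, rfl⟩, hrf, hfa, Matrix.mulVec_mulVec, hSW g,
      ← Matrix.mulVec_mulVec, ← hfa, hrf]

/-- `W ⊗ W'^*` -/
noncomputable def hmM (W : G →* GL (Fin m) C) (W' : G →* GL (Fin m') C) :
    G →* Matrix (Fin (m * m')) (Fin (m * m')) C where
  toFun g := ((W g : Matrix (Fin m) (Fin m) C) ⊗ₖ
    (W' g⁻¹ : Matrix (Fin m') (Fin m') C).transpose).submatrix finProdFinEquiv.symm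
      finProdFinEquiv.symm
  map_one' := by
    rw [inv_one, map_one, map_one, Units.val_one, Units.val_one, Matrix.transpose_one,
      Matrix.one_kronecker_one, Matrix.submatrix_one_equiv]
  map_mul' g h := by
    rw [Matrix.submatrix_mul_equiv, ← Matrix.mul_kronecker_mul, ← Matrix.transpose_mul, mul_inv_rev,
      map_mul, map_mul, Units.val_mul, Units.val_mul]

/-- `W ⊗ W'^*` -/
noncomputable def hm (W : G →* GL (Fin m) C) (W' : G →* GL (Fin m') C) :
    G →* GL (Fin (m * m')) C := (hmM W W').toHomUnits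

theorem hm_apply (W : G →* GL (Fin m) C) (W' : G →* GL (Fin m') C) (g : G) :
    (hm W W' g : Matrix (Fin (m * m')) (Fin (m * m')) C) =
      ((W g : Matrix (Fin m) (Fin m) C) ⊗ₖ
        (W' g⁻¹ : Matrix (Fin m') (Fin m') C).transpose).submatrix finProdFinEquiv.symm
          finProdFinEquiv.symm := rfl

theorem hm_trace (W : G →* GL (Fin m) C) (W' : G →* GL (Fin m') C) (g : G) :
    (hm W W' g : Matrix (Fin (m * m')) (Fin (m * m')) C).trace =
      (W g : Matrix (Fin m) (Fin m) C).trace * (W' g⁻¹ : Matrix (Fin m') (Fin m') C).trace := by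
  rw [← Matrix.trace_transpose (W' g⁻¹ : Matrix (Fin m') (Fin m') C), ← Matrix.trace_kronecker,
    hm_apply]
  unfold Matrix.trace
  exact Fintype.sum_equiv finProdFinEquiv.symm _ _ fun k => rfl

/-- the homomorphisms from `W'` to `W` -/
def Hom (W : G →* GL (Fin m) C) (W' : G →* GL (Fin m') C) :
    Submodule C (Matrix (Fin m) (Fin m') C) where
  carrier := {A | ∀ g, (W g : Matrix (Fin m) (Fin m) C) * A =
    A * (W' g : Matrix (Fin m') (Fin m') C)}
  add_mem' := fun {x y} hx hy g => by rw [Matrix.mul_add, Matrix.add_mul, hx g, hy g]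
  zero_mem' := fun g => by rw [Matrix.mul_zero, Matrix.zero_mul]
  smul_mem' := fun c x hx g => by rw [Matrix.mul_smul, Matrix.smul_mul, hx g]

/-- matrices as vectors -/
noncomputable def vv (m m' : ℕ) (C : Type) [Field C] : Matrix (Fin m) (Fin m') C ≃ₗ[C]
    (Fin (m * m') → C) where
  toFun A := fun k => A (finProdFinEquiv.symm k).1 (finProdFinEquiv.symm k).2
  map_add' _ _ := rfl
  map_smul' _ _ := rfl
  invFun x := fun i j => x (finProdFinEquiv (i, j))
  left_inv X := by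
    ext i j
    show X (finProdFinEquiv.symm (finProdFinEquiv (i, j))).1
      (finProdFinEquiv.symm (finProdFinEquiv (i, j))).2 = X i j
    rw [Equiv.symm_apply_apply]
  right_inv x := by
    funext k
    show x (finProdFinEquiv ((finProdFinEquiv.symm k).1, (finProdFinEquiv.symm k).2)) = x k
    rw [Prod.mk.eta, Equiv.apply_symm_apply]

theorem hm_vv (W : G →* GL (Fin m) C) (W' : G →* GL (Fin m') C) (g : G)
    (X : Matrix (Fin m) (Fin m') C) :
    (hm W W' g : Matrix (Fin (m * m')) (Fin (m * m')) C).mulVec (vv m m' C X) =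
      vv m m' C ((W g : Matrix (Fin m) (Fin m) C) * X *
        (W' g⁻¹ : Matrix (Fin m') (Fin m') C)) := by
  funext k
  rw [hm_apply]
  unfold Matrix.mulVec dotProduct
  have h1 : ∑ l, (((W g : Matrix (Fin m) (Fin m) C) ⊗ₖ
      (W' g⁻¹ : Matrix (Fin m') (Fin m') C).transpose).submatrix finProdFinEquiv.symm
        finProdFinEquiv.symm) k l * vv m m' C X l =
      ∑ y : Fin m × Fin m', ((W g : Matrix (Fin m) (Fin m) C) (finProdFinEquiv.symm k).1 y.1 *
        (W' g⁻¹ : Matrix (Fin m') (Fin m') C) y.2 (finProdFinEquiv.symm k).2) * X y.1 y.2 :=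
    Fintype.sum_equiv finProdFinEquiv.symm _ _ fun l => rfl
  rw [h1, Fintype.sum_prod_type]
  show _ = ((W g : Matrix (Fin m) (Fin m) C) * X * (W' g⁻¹ : Matrix (Fin m') (Fin m') C))
    (finProdFinEquiv.symm k).1 (finProdFinEquiv.symm k).2
  rw [Matrix.mul_apply]
  simp only [Matrix.mul_apply, Finset.sum_mul]
  rw [Finset.sum_comm]
  refine Finset.sum_congr rfl fun j _ => Finset.sum_congr rfl fun i _ => ?_
  ring

theorem hom_eig (W : G →* GL (Fin m) C) (W' : G →* GL (Fin m') C) (χ : G →* Cˣ) :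
    (Hom W W').map (vv m m' C : Matrix (Fin m) (Fin m') C →ₗ[C] _) = Eig (hm W W') χ 0 := by
  ext x
  rw [Submodule.mem_map, mem_Eig]
  constructor
  · rintro ⟨A, hA, rfl⟩ g
    have h1 := hm_vv W W' g A
    rw [hA g, Matrix.mul_assoc, hinv', Matrix.mul_one] at h1
    rw [zpow_zero, Units.val_one, one_smul]
    exact h1
  · intro h
    refine ⟨(vv m m' C).symm x, fun g => ?_, (vv m m' C).apply_symm_apply x⟩
    set A := (vv m m' C).symm x with hA
    have hx : x = vv m m' C A := ((vv m m' C).apply_symm_apply x).symm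
    have h1 := h g
    rw [hx, hm_vv, zpow_zero, Units.val_one, one_smul] at h1
    have h2 : (W g : Matrix (Fin m) (Fin m) C) * A * (W' g⁻¹ : Matrix (Fin m') (Fin m') C) = A :=
      (vv m m' C).injective h1
    calc (W g : Matrix (Fin m) (Fin m) C) * A
        = (W g : Matrix (Fin m) (Fin m) C) * A * (W' g⁻¹ : Matrix (Fin m') (Fin m') C) *
            (W' g : Matrix (Fin m') (Fin m') C) := by
            rw [Matrix.mul_assoc ((W g : Matrix (Fin m) (Fin m) C) * A), hinv, Matrix.mul_one]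
      _ = A * (W' g : Matrix (Fin m') (Fin m') C) := by rw [h2]

theorem finrank_hom (W : G →* GL (Fin m) C) (W' : G →* GL (Fin m') C) (χ : G →* Cˣ) :
    Module.finrank C (Eig (hm W W') χ 0) = Module.finrank C (Hom W W') := by
  rw [← hom_eig W W' χ]
  exact LinearEquiv.finrank_map_eq (vv m m' C) (Hom W W')

/-- Schur's lemma for two representations which are not isomorphic -/
theorem schur' (W : G →* GL (Fin m) C) (W' : G →* GL (Fin m') C) (hW : Irreducible W)
    (hW' : Irreducible W') (hne : ¬ Iso W W') : Module.finrank C (Hom W W') = 0 := by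
  classical
  have h0 : Hom W W' = ⊥ := by
    rw [Submodule.eq_bot_iff]
    intro A hA
    by_contra hA0
    apply hne
    set f : (Fin m' → C) →ₗ[C] (Fin m → C) := Matrix.toLin' A with hf
    have hfa : ∀ x, f x = A.mulVec x := fun x => by rw [hf, Matrix.toLin'_apply]
    have hcomm : ∀ g x, (W g : Matrix (Fin m) (Fin m) C).mulVec (f x) =
        f ((W' g : Matrix (Fin m') (Fin m') C).mulVec x) := by
      intro g x
      rw [hfa, hfa, Matrix.mulVec_mulVec, Matrix.mulVec_mulVec, hA g]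
    have hker : LinearMap.ker f = ⊥ := by
      rcases hW'.2 (LinearMap.ker f) (fun g u hu => by
        rw [LinearMap.mem_ker] at hu ⊢
        rw [← hcomm, hu, Matrix.mulVec_zero]) with h | h
      · exact h
      · exfalso
        apply hA0
        apply mat_ext
        intro x
        rw [← hfa, Matrix.zero_mulVec]
        exact LinearMap.mem_ker.1 (by rw [h]; trivial)
    have hran : LinearMap.range f = ⊤ := by
      rcases hW.2 (LinearMap.range f) (fun g u hu => by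
        obtain ⟨x, rfl⟩ := hu
        exact ⟨_, (hcomm g x).symm⟩) with h | h
      · exfalso
        apply hA0
        apply mat_ext
        intro x
        rw [← hfa, Matrix.zero_mulVec]
        have h1 : f x ∈ LinearMap.range f := ⟨x, rfl⟩
        rw [h, Submodule.mem_bot] at h1
        exact h1
      · exact h
    let e : (Fin m' → C) ≃ₗ[C] (Fin m → C) :=
      LinearEquiv.ofBijective f ⟨LinearMap.ker_eq_bot.1 hker, LinearMap.range_eq_top.1 hran⟩
    have he : ∀ x, e x = f x := fun x => rfl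
    refine ⟨A, LinearMap.toMatrix' (e.symm : (Fin m → C) →ₗ[C] (Fin m' → C)), ?_, ?_, hA⟩
    · apply mat_ext
      intro x
      rw [← Matrix.mulVec_mulVec, toMat, ← hfa, Matrix.one_mulVec]
      exact e.apply_symm_apply x
    · apply mat_ext
      intro x
      rw [← Matrix.mulVec_mulVec, toMat, ← hfa, Matrix.one_mulVec]
      exact e.symm_apply_apply x
  rw [h0]
  exact finrank_bot C _

theorem exists_eig [IsAlgClosed C] (A : Matrix (Fin m) (Fin m) C) : ∃ a : Fin m → C,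
    A.charpoly = ∏ i, (X - Polynomial.C (a i)) := by
  classical
  have h1 := (IsAlgClosed.splits A.charpoly).eq_prod_roots_of_monic A.charpoly_monic
  have h2 : A.charpoly.roots.card = m := by
    rw [← (IsAlgClosed.splits A.charpoly).natDegree_eq_card_roots, Matrix.charpoly_natDegree_eq_dim,
      Fintype.card_fin]
  obtain ⟨l, hl⟩ := Quot.exists_rep A.charpoly.roots
  have h3 : l.length = m := by
    rw [← h2, ← hl]
    rfl
  subst h3
  refine ⟨l.get, ?_⟩
  rw [h1, ← hl]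
  show ((l : Multiset C).map fun a => X - Polynomial.C a).prod = _
  rw [Multiset.map_coe, Multiset.prod_coe, ← List.prod_ofFn]
  congr 1
  conv_lhs => rw [← List.ofFn_get l]
  rw [List.map_ofFn]
  rfl

theorem sub_root (ρ : G →* GL (Fin n) C) (W : G →* GL (Fin m) C) (h : Sub ρ W) (g : G) (a : C)
    (ha : (W g : Matrix (Fin m) (Fin m) C).charpoly.eval a = 0) :
    (ρ g : Matrix (Fin n) (Fin n) C).charpoly.eval a = 0 := by
  classical
  obtain ⟨S, hS, hSW⟩ := h
  rw [Matrix.eval_charpoly] at ha ⊢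
  obtain ⟨x, hx0, hx⟩ := Matrix.exists_mulVec_eq_zero_iff.2 ha
  refine Matrix.exists_mulVec_eq_zero_iff.1 ⟨S.mulVec x, fun h => hx0 (hS x h), ?_⟩
  have e : ∀ (k : ℕ) (y : Fin k → C), (Matrix.scalar (Fin k) a).mulVec y = a • y := by
    intro k y
    funext i
    rw [Matrix.scalar_apply, Matrix.mulVec_diagonal]
    rfl
  rw [Matrix.sub_mulVec, sub_eq_zero, e] at hx ⊢
  rw [Matrix.mulVec_mulVec, hSW g, ← Matrix.mulVec_mulVec, ← hx, Matrix.mulVec_smul]

end

section
variable {K E : Type} [Field K] [NumberField K] [Field E] [NumberField E]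

theorem piece_weight (N n : ℕ) (P : HeightOneSpectrum (𝓞 K) → (𝓞 E)[X]) (w : ℤ)
    (hpure : ∀ (σ : E →+* ℂ) (v : HeightOneSpectrum (𝓞 K)), (N : 𝓞 K) ∉ v.asIdeal →
      ∀ z ∈ ((P v).map (σ.comp (algebraMap (𝓞 E) E))).roots,
        ‖z‖ = (Ideal.absNorm v.asIdeal : ℝ) ^ ((w : ℝ) / 2))
    (ℓ : ℕ) [hℓ : Fact ℓ.Prime] (κ : E →+* PadicAlgCl ℓ) (ιc : PadicAlgCl ℓ ≃+* ℂ)
    (ρ : GK K →* GL (Fin n) (PadicAlgCl ℓ)) (hρ : Att N n P ℓ κ ρ) {m : ℕ}
    (W : GK K →* GL (Fin m) (PadicAlgCl ℓ)) (hW : Sub ρ W) (v : HeightOneSpectrum (𝓞 K))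
    (hv : (N : 𝓞 K) ∉ v.asIdeal) (hvℓ : (ℓ : 𝓞 K) ∉ v.asIdeal) (s : GK K) (hs : IsFrob v s) :
    ιc (W s : Matrix (Fin m) (Fin m) (PadicAlgCl ℓ)).trace =
      (starRingEnd ℂ) (ιc (W s⁻¹ : Matrix (Fin m) (Fin m) (PadicAlgCl ℓ)).trace) /
        (((Ideal.absNorm v.asIdeal : ℝ) ^ (w : ℝ) : ℝ) : ℂ) := by
  classical
  have hpos : (0 : ℝ) < (Ideal.absNorm v.asIdeal : ℝ) := Pool.Agent.H358.ME.ACM.norm_pos v
  obtain ⟨a, ha⟩ := exists_eig (W s⁻¹ : Matrix (Fin m) (Fin m) (PadicAlgCl ℓ))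
  have hnorm : ∀ i, ‖ιc (a i)‖ = (Ideal.absNorm v.asIdeal : ℝ) ^ ((w : ℝ) / 2) := by
    intro i
    refine hpure ((ιc : PadicAlgCl ℓ →+* ℂ).comp κ) v hv _ ?_
    have h1 : (ρ s⁻¹ : Matrix (Fin n) (Fin n) (PadicAlgCl ℓ)).charpoly.eval (a i) = 0 := by
      refine sub_root ρ W hW s⁻¹ (a i) ?_
      rw [ha, eval_prod]
      exact Finset.prod_eq_zero (Finset.mem_univ i) (by simp)
    have h2 : ((P v).map (((ιc : PadicAlgCl ℓ →+* ℂ).comp κ).comp (algebraMap (𝓞 E) E))) =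
        ((ρ s⁻¹ : Matrix (Fin n) (Fin n) (PadicAlgCl ℓ)).charpoly).map
          (ιc : PadicAlgCl ℓ →+* ℂ) := by
      rw [hρ.frob v hv hvℓ s hs, Polynomial.map_map]
      rfl
    rw [h2, mem_roots ((Matrix.charpoly_monic _).map _).ne_zero, IsRoot]
    show Polynomial.eval ((ιc : PadicAlgCl ℓ →+* ℂ) (a i)) _ = 0
    rw [Polynomial.eval_map_apply, h1, map_zero]
  have h5 := trace_inv_of (W s⁻¹) _ ha
  have h6 : (W s⁻¹)⁻¹ = W s := by rw [map_inv, inv_inv]
  rw [h6] at h5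
  rw [h5, Matrix.trace_eq_neg_charpoly_nextCoeff, ha, prod_X_sub_C_nextCoeff, neg_neg, map_sum,
    map_sum, map_sum, Finset.sum_div]
  refine Finset.sum_congr rfl fun i _ => ?_
  have hsq : (Ideal.absNorm v.asIdeal : ℝ) ^ (w : ℝ) =
      ((Ideal.absNorm v.asIdeal : ℝ) ^ ((w : ℝ) / 2)) ^ 2 := by
    rw [← Real.rpow_natCast, ← Real.rpow_mul hpos.le]
    congr 1
    push_cast
    ring
  rw [map_inv₀, Complex.inv_def, Complex.normSq_eq_norm_sq, hnorm i, ← hsq, div_eq_mul_inv,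
    Complex.ofReal_inv]

/-- **orthogonality** -/
theorem orth (N n : ℕ) (hN : 2 ≤ N)
    (P : HeightOneSpectrum (𝓞 K) → (𝓞 E)[X]) (hP : PosUD (SolRes N n P)) (w : ℤ)
    (hpure : ∀ (σ : E →+* ℂ) (v : HeightOneSpectrum (𝓞 K)), (N : 𝓞 K) ∉ v.asIdeal →
      ∀ z ∈ ((P v).map (σ.comp (algebraMap (𝓞 E) E))).roots,
        ‖z‖ = (Ideal.absNorm v.asIdeal : ℝ) ^ ((w : ℝ) / 2)) (τ : E →+* ℂ)
    (ℓ : ℕ) [hℓ : Fact ℓ.Prime] (κ : E →+* PadicAlgCl ℓ) (ιc : PadicAlgCl ℓ ≃+* ℂ)
    (ρ : GK K →* GL (Fin n) (PadicAlgCl ℓ)) (hρ : Att N n P ℓ κ ρ)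
    (χ : GK K →* (PadicAlgCl ℓ)ˣ) (hχ : IsCyc ℓ χ) {m m' : ℕ}
    (W : GK K →* GL (Fin m) (PadicAlgCl ℓ)) (hW : Sub ρ W)
    (W' : GK K →* GL (Fin m') (PadicAlgCl ℓ)) (hW' : Sub ρ W')
    (F F' : HeightOneSpectrum (𝓞 K) → ℂ)
    (hF : ∀ᶠ v : HeightOneSpectrum (𝓞 K) in cofinite, ∀ s, IsFrob v s →
      F v = ιc (W s⁻¹ : Matrix (Fin m) (Fin m) (PadicAlgCl ℓ)).trace /
        (((Ideal.absNorm v.asIdeal : ℝ) ^ ((w : ℝ) / 2) : ℝ) : ℂ))
    (hF' : ∀ᶠ v : HeightOneSpectrum (𝓞 K) in cofinite, ∀ s, IsFrob v s →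
      F' v = ιc (W' s⁻¹ : Matrix (Fin m') (Fin m') (PadicAlgCl ℓ)).trace /
        (((Ideal.absNorm v.asIdeal : ℝ) ^ ((w : ℝ) / 2) : ℝ) : ℂ)) :
    MV (fun v => F v * (starRingEnd ℂ) (F' v))
      (Module.finrank (PadicAlgCl ℓ) (Hom W W') : ℂ) := by
  classical
  have hW'0 := hW'
  obtain ⟨S, hS, hSW⟩ := hW
  obtain ⟨S', hS', hSW'⟩ := hW'
  obtain ⟨R, hR, hRW⟩ := summand ρ hρ.semi W S hS hSW
  obtain ⟨R', hR', hRW'⟩ := summand ρ hρ.semi W' S' hS' hSW'
  let e1 : (Fin 1 → Fin n) × (Fin 1 → Fin n) ≃ Fin n × Fin n :=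
    (Equiv.funUnique (Fin 1) (Fin n)).prodCongr (Equiv.funUnique (Fin 1) (Fin n))
  set T0 : Matrix (Fin n × Fin n) (Fin m × Fin m') (PadicAlgCl ℓ) := S ⊗ₖ R'.transpose with hT0
  set T : Matrix ((Fin 1 → Fin n) × (Fin 1 → Fin n)) (Fin (m * m')) (PadicAlgCl ℓ) :=
    T0.submatrix e1 finProdFinEquiv.symm with hTd
  have hTinj : ∀ x : Fin (m * m') → PadicAlgCl ℓ, T.mulVec x = 0 → x = 0 := by
    intro x hx
    have h1 : ((R ⊗ₖ S'.transpose).submatrix finProdFinEquiv.symm e1) * T = 1 := by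
      rw [hTd, Matrix.submatrix_mul_equiv, hT0, ← Matrix.mul_kronecker_mul, hR,
        ← Matrix.transpose_mul, hR', Matrix.transpose_one, Matrix.one_kronecker_one,
        Matrix.submatrix_one_equiv]
    rw [← Matrix.one_mulVec x, ← h1, ← Matrix.mulVec_mulVec, hx, Matrix.mulVec_zero]
  have htens : ∀ g, tens 1 1 ρ g = ((ρ g : Matrix (Fin n) (Fin n) (PadicAlgCl ℓ)) ⊗ₖ
      (ρ g⁻¹ : Matrix (Fin n) (Fin n) (PadicAlgCl ℓ)).transpose).submatrix e1 e1 := by
    intro g
    ext x y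
    unfold tens
    rw [Fin.prod_univ_one, Fin.prod_univ_one]
    rfl
  have hTW : ∀ g, tens 1 1 ρ g * T = T *
      (hm W W' g : Matrix (Fin (m * m')) (Fin (m * m')) (PadicAlgCl ℓ)) := by
    intro g
    rw [htens, hTd, hm_apply, Matrix.submatrix_mul_equiv, Matrix.submatrix_mul_equiv, hT0,
      ← Matrix.mul_kronecker_mul, ← Matrix.mul_kronecker_mul, hSW g, ← Matrix.transpose_mul,
      ← Matrix.transpose_mul, hRW' g⁻¹]
  have hpure1 := hpure τ
  have h1 := (mean_W all_CYC all_DUI all_TRI all_PUR N n hN P hP w τ hpure1 ℓ κ ιc ρ hρ χ hχ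
    1 1 (m * m') (hm W W') T hTinj hTW (fun v => F v * (starRingEnd ℂ) (F' v)) (by
      filter_upwards [hF, hF', ev_not_mem (K := K) (N := N) (by omega),
        ev_not_mem (K := K) hℓ.out.pos] with v hv hv' hvN hvℓ s hs
      have hpos : (0 : ℝ) < (Ideal.absNorm v.asIdeal : ℝ) := Pool.Agent.H358.ME.ACM.norm_pos v
      have h0 : w * (((1 : ℕ) : ℤ) - ((1 : ℕ) : ℤ)) = 0 := by push_cast; ring
      rw [h0, nf_zero, div_one, hm_trace, inv_inv, map_mul,
        piece_weight N n P w hpure ℓ κ ιc ρ hρ W' hW'0 v hvN hvℓ s hs]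
      show F v * (starRingEnd ℂ) (F' v) = _
      rw [hv s hs, hv' s hs, map_div₀, Complex.conj_ofReal]
      have hsq : (Ideal.absNorm v.asIdeal : ℝ) ^ (w : ℝ) =
          ((Ideal.absNorm v.asIdeal : ℝ) ^ ((w : ℝ) / 2)) *
          ((Ideal.absNorm v.asIdeal : ℝ) ^ ((w : ℝ) / 2)) := by
        rw [← Real.rpow_add hpos]
        congr 1
        ring
      rw [hsq, Complex.ofReal_mul, div_mul_div_comm, mul_div_assoc])).1 0 (by push_cast; ring)
  rw [neg_zero, finrank_hom] at h1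
  exact h1

end

end Pool.Agent.H500.LV
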