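import Pool.Agent.H500.LV.D
import Pool.Agent.H500.ED.Rat

set_option autoImplicit false
set_option linter.unusedSectionVars false

/-!
# Level one over `ℚ`
-/

namespace Pool.Agent.H500.LV

open NumberField IsDedekindDomain Filter Topology Polynomial
open Pool.Agent.W401.Cheb (GK IsFrob IsInert dens)
open Pool.Agent.H500.HC
open Pool.Agent.H500.TH
open Pool.Agent.H500.MW (PosUD)
open Pool.Agent.H500.ED (norm_spec norm_eq SRes PQ)

theorem totPos_nat {p : ℕ} (hp : 0 < p) : TotPos (K := ℚ) (p : 𝓞 ℚ) := by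
  intro τ
  have h1 : (((p : 𝓞 ℚ) : 𝓞 ℚ) : ℚ) = (p : ℚ) := rfl
  rw [h1, map_natCast]
  exact_mod_cast hp

theorem span_rat (v : HeightOneSpectrum (𝓞 ℚ)) :
    v.asIdeal = Ideal.span {((Ideal.absNorm v.asIdeal : ℕ) : 𝓞 ℚ)} := by
  obtain ⟨h1, h2⟩ := norm_spec v
  have h3 : Ideal.span {((Ideal.absNorm v.asIdeal : ℕ) : 𝓞 ℚ)} ≤ v.asIdeal :=
    (Ideal.span_singleton_le_iff_mem _).2 h2
  obtain ⟨J, hJ⟩ := Ideal.dvd_iff_le.2 h3
  have h4 := congrArg Ideal.absNorm hJ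
  rw [Ideal.absNorm_span_natCast, RingOfIntegers.rank, Module.finrank_self, pow_one, map_mul] at h4
  have h5 : Ideal.absNorm J = 1 := by
    have := Nat.eq_of_mul_eq_mul_left h1.pos ((mul_one _).trans h4)
    exact this.symm
  rw [Ideal.absNorm_eq_one_iff] at h5
  rw [h5, Ideal.mul_top] at hJ
  exact hJ.symm

theorem nc1_rat : NC1 ℚ := fun v => ⟨_, totPos_nat (norm_spec v).1.pos, span_rat v⟩

variable {E : Type} [Field E] [NumberField E]

/-- **level one over `ℚ`** -/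
theorem level_rat (n : ℕ) (P : ℕ → (𝓞 E)[X]) (hP : PosUD (SRes 1 n P)) :
    ∃ m : Fin n → ℕ, ∀ p : ℕ, p.Prime →
      P p = ∏ i, (X - Polynomial.C ((p : 𝓞 E) ^ m i)) := by
  classical
  let j : E →+* QBar := ((IsAlgClosed.lift : E →ₐ[ℚ] QBar) : E →+* QBar)
  obtain ⟨t, h1, -⟩ := level_adic nc1_rat j n (PQ P) (hP.mono fun lam h => h.solRes)
  let σ0 : ℚ →+* QBar := algebraMap ℚ QBar
  refine ⟨fun i => t i σ0, fun p hp => ?_⟩
  -- the place of `p`
  obtain ⟨Q, hQ, hpQ⟩ : ∃ Q : Ideal (𝓞 ℚ), Q.IsMaximal ∧ (p : 𝓞 ℚ) ∈ Q := by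
    have h2 : Ideal.span {(p : 𝓞 ℚ)} ≠ ⊤ := by
      intro h
      have h3 := congrArg Ideal.absNorm h
      rw [Ideal.absNorm_span_natCast, RingOfIntegers.rank, Module.finrank_self, pow_one,
        Ideal.absNorm_top] at h3
      exact hp.one_lt.ne' h3
    obtain ⟨Q, hQ, hle⟩ := Ideal.exists_le_maximal _ h2
    exact ⟨Q, hQ, hle (Ideal.mem_span_singleton_self _)⟩
  have hQ0 : Q ≠ ⊥ := by
    rintro rfl
    rw [Ideal.mem_bot] at hpQ
    exact hp.ne_zero (by exact_mod_cast hpQ)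
  set v : HeightOneSpectrum (𝓞 ℚ) := ⟨Q, hQ.isPrime, hQ0⟩ with hv
  have hvp : Ideal.absNorm v.asIdeal = p := norm_eq hp hpQ
  have h2 := h1 v _ (totPos_nat (norm_spec v).1.pos) (span_rat v)
  have h3 : PQ P v = P p := by
    show P (Ideal.absNorm v.asIdeal) = P p
    rw [hvp]
  rw [h3] at h2
  apply Polynomial.map_injective (jz j) (jz_inj j)
  rw [h2, Polynomial.map_prod]
  refine Finset.prod_congr rfl fun i _ => ?_
  rw [typB_par (totPos_nat (norm_spec v).1.pos) (span_rat v) (m := t i σ0)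
    (fun σ => by rw [Subsingleton.elim σ σ0]), hvp, Polynomial.map_sub, Polynomial.map_X,
    Polynomial.map_C]
  have h5 : jz j ((p : 𝓞 E) ^ t i σ0) = (p : ZBar) ^ t i σ0 := by rw [map_pow, map_natCast]
  show _ = X - Polynomial.C (jz j ((p : 𝓞 E) ^ t i σ0))
  rw [h5]

end Pool.Agent.H500.LV
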