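import Pool.Agent.H500.LV.Mert
import Pool.Agent.H500.LV.Irr

set_option autoImplicit false
set_option linter.unusedSectionVars false

/-!
# Selberg's sum for systems with solvable residual images
-/

namespace Pool.Agent.H500.LV

open NumberField IsDedekindDomain Filter Topology Polynomial
open Pool.Agent.W401.Cheb (GK IsFrob IsInert dens)
open Pool.Agent.H500.MW (PosUD)
open Pool.Agent.H500.TH (SolRes)
open Pool.Agent.H500.ME

/-- the matrices which commute with the representation: the endomorphisms -/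
def Commutant {G C : Type} [Group G] [Field C] {n : ℕ} (ρ : G →* GL (Fin n) C) :
    Submodule C (Matrix (Fin n) (Fin n) C) where
  carrier := {A | ∀ g, (ρ g : Matrix (Fin n) (Fin n) C) * A =
    A * (ρ g : Matrix (Fin n) (Fin n) C)}
  add_mem' := fun {x y} hx hy g => by rw [mul_add, add_mul, hx g, hy g]
  zero_mem' := fun g => by rw [mul_zero, zero_mul]
  smul_mem' := fun c x hx g => by rw [Matrix.mul_smul, Matrix.smul_mul, hx g]

section
variable {G C : Type} [Group G] [Field C] {n : ℕ}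

/-- matrices as vectors -/
noncomputable def vecL (n : ℕ) (C : Type) [Field C] : Matrix (Fin n) (Fin n) C ≃ₗ[C]
    (Fin (Fintype.card (AI n)) → C) where
  toFun := vec
  map_add' _ _ := rfl
  map_smul' _ _ := rfl
  invFun x := fun i j => x (ae n (fun _ => i, fun _ => j))
  left_inv X := by
    ext i j
    exact vec_ae X i j
  right_inv x := by
    funext k
    show x (ae n (fun _ => (((ae n).symm k).1 0), fun _ => (((ae n).symm k).2 0))) = x k
    have h1 : ((fun _ => (((ae n).symm k).1 0), fun _ => (((ae n).symm k).2 0)) : AI n) =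
        (ae n).symm k := by
      refine Prod.ext ?_ ?_
      · funext t
        rw [Subsingleton.elim t 0]
      · funext t
        rw [Subsingleton.elim t 0]
    rw [h1, Equiv.apply_symm_apply]

theorem hinv (ρ : G →* GL (Fin n) C) (g : G) :
    (ρ g⁻¹ : Matrix (Fin n) (Fin n) C) * (ρ g : Matrix (Fin n) (Fin n) C) = 1 := by
  rw [← Units.val_mul, ← map_mul, inv_mul_cancel, map_one, Units.val_one]

theorem hinv' (ρ : G →* GL (Fin n) C) (g : G) :
    (ρ g : Matrix (Fin n) (Fin n) C) * (ρ g⁻¹ : Matrix (Fin n) (Fin n) C) = 1 := by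
  rw [← Units.val_mul, ← map_mul, mul_inv_cancel, map_one, Units.val_one]

theorem comm_eig (ρ : G →* GL (Fin n) C) (χ : G →* Cˣ) :
    (Commutant ρ).map (vecL n C : Matrix (Fin n) (Fin n) C →ₗ[C] _) = Eig (adj ρ) χ 0 := by
  ext x
  rw [Submodule.mem_map, mem_Eig]
  constructor
  · rintro ⟨A, hA, rfl⟩ g
    have h1 := adj_vec ρ g A
    rw [hA g, Matrix.mul_assoc, hinv', Matrix.mul_one] at h1
    rw [zpow_zero, Units.val_one, one_smul]
    exact h1
  · intro h
    refine ⟨(vecL n C).symm x, fun g => ?_, (vecL n C).apply_symm_apply x⟩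
    set A := (vecL n C).symm x with hA
    have hx : x = vec A := ((vecL n C).apply_symm_apply x).symm
    have h1 := h g
    rw [hx, adj_vec, zpow_zero, Units.val_one, one_smul] at h1
    have h2 : (ρ g : Matrix (Fin n) (Fin n) C) * A * (ρ g⁻¹ : Matrix (Fin n) (Fin n) C) = A :=
      (vecL n C).injective h1
    calc (ρ g : Matrix (Fin n) (Fin n) C) * A
        = (ρ g : Matrix (Fin n) (Fin n) C) * A * (ρ g⁻¹ : Matrix (Fin n) (Fin n) C) *
            (ρ g : Matrix (Fin n) (Fin n) C) := by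
            rw [Matrix.mul_assoc ((ρ g : Matrix (Fin n) (Fin n) C) * A), hinv, Matrix.mul_one]
      _ = A * (ρ g : Matrix (Fin n) (Fin n) C) := by rw [h2]

theorem finrank_comm (ρ : G →* GL (Fin n) C) (χ : G →* Cˣ) :
    Module.finrank C (Eig (adj ρ) χ 0) = Module.finrank C (Commutant ρ) := by
  rw [← comm_eig ρ χ]
  exact LinearEquiv.finrank_map_eq (vecL n C) (Commutant ρ)

/-- Schur's lemma -/
theorem schur [IsAlgClosed C] (ρ : G →* GL (Fin n) C) (hρ : Irreducible ρ) :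
    Module.finrank C (Commutant ρ) = 1 := by
  classical
  obtain ⟨hn, hirr⟩ := hρ
  have hne : Nonempty (Fin n) := ⟨⟨0, hn⟩⟩
  have h1m : (1 : Matrix (Fin n) (Fin n) C) ∈ Commutant ρ := fun g => by rw [mul_one, one_mul]
  refine finrank_eq_one ⟨1, h1m⟩ (fun h => ?_) (fun A => ?_)
  · have h2 : (1 : Matrix (Fin n) (Fin n) C) = 0 := congrArg Subtype.val h
    exact one_ne_zero h2
  · obtain ⟨A, hA⟩ := A
    obtain ⟨μ, hμ⟩ := Module.End.exists_eigenvalue (Matrix.toLin' A)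
    obtain ⟨y, hy⟩ := hμ.exists_hasEigenvector
    set Y : Submodule C (Fin n → C) := Module.End.eigenspace (Matrix.toLin' A) μ with hY
    have hst : ∀ g, ∀ u ∈ Y, (ρ g : Matrix (Fin n) (Fin n) C).mulVec u ∈ Y := by
      intro g u hu
      rw [hY, Module.End.mem_eigenspace_iff, Matrix.toLin'_apply] at hu ⊢
      rw [Matrix.mulVec_mulVec, ← hA g, ← Matrix.mulVec_mulVec, hu, Matrix.mulVec_smul]
    refine ⟨μ, Subtype.ext ?_⟩
    show μ • (1 : Matrix (Fin n) (Fin n) C) = A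
    rcases hirr Y hst with h | h
    · exfalso
      have h2 : y ∈ Y := hy.1
      rw [h, Submodule.mem_bot] at h2
      exact hy.2 h2
    · apply Matrix.ext_of_mulVec_single
      intro i
      have h2 : (Pi.single i 1 : Fin n → C) ∈ Y := by rw [h]; trivial
      rw [hY, Module.End.mem_eigenspace_iff, Matrix.toLin'_apply] at h2
      rw [h2, Matrix.smul_mulVec, Matrix.one_mulVec]

end

section
variable {K E : Type} [Field K] [NumberField K] [Field E] [NumberField E]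

theorem mv_unique {F : HeightOneSpectrum (𝓞 K) → ℂ} {r r' : ℂ} (h : MV F r) (h' : MV F r') :
    r = r' := tendsto_nhds_unique h.nat h'.nat

/-- **Selberg's sum** -/
theorem selberg (N n : ℕ) (hN : 2 ≤ N) (hn : 0 < n)
    (P : HeightOneSpectrum (𝓞 K) → (𝓞 E)[X]) (hP : PosUD (SolRes N n P)) (w : ℤ) (τ : E →+* ℂ)
    (hpure : ∀ v : HeightOneSpectrum (𝓞 K), (N : 𝓞 K) ∉ v.asIdeal →
      ∀ z ∈ ((P v).map (τ.comp (algebraMap (𝓞 E) E))).roots,
        ‖z‖ = (Ideal.absNorm v.asIdeal : ℝ) ^ ((w : ℝ) / 2)) :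
    ∃ m : ℕ, 0 < m ∧ MV (fun v => ((GV N P τ w v : ℝ) : ℂ)) (m : ℂ) ∧
      ∀ (ℓ : ℕ) [Fact ℓ.Prime] (κ : E →+* PadicAlgCl ℓ),
        (∃ ρ : GK K →* GL (Fin n) (PadicAlgCl ℓ), Att N n P ℓ κ ρ) ∧
        ∀ ρ : GK K →* GL (Fin n) (PadicAlgCl ℓ), Att N n P ℓ κ ρ →
          Module.finrank (PadicAlgCl ℓ) (Commutant ρ) = m ∧ (m = 1 ↔ Irreducible ρ) := by
  classical
  have hcyc : ∀ (ℓ : ℕ) [Fact ℓ.Prime] (_ : E →+* PadicAlgCl ℓ),
      ∃ χ : GK K →* (PadicAlgCl ℓ)ˣ, IsCyc ℓ χ := by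
    intro ℓ _ κ
    let j : E →+* Pool.Agent.H500.HC.QBar :=
      ((IsAlgClosed.lift : E →ₐ[ℚ] Pool.Agent.H500.HC.QBar) : E →+* Pool.Agent.H500.HC.QBar)
    obtain ⟨κ', -⟩ := Pool.Agent.H500.ED.exists_ext j κ
    exact (all_CYC K ℓ κ').1
  have hall : ∀ (ℓ : ℕ) [Fact ℓ.Prime] (κ : E →+* PadicAlgCl ℓ)
      (ρ : GK K →* GL (Fin n) (PadicAlgCl ℓ)), Att N n P ℓ κ ρ →
      MV (fun v => ((GV N P τ w v : ℝ) : ℂ))
        (Module.finrank (PadicAlgCl ℓ) (Commutant ρ) : ℂ) := by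
    intro ℓ _ κ ρ hρ
    obtain ⟨χ, hχ⟩ := hcyc ℓ κ
    have h1 := mean_adj N n hN P hP w τ hpure ℓ κ ρ hρ χ hχ
    rw [finrank_comm ρ χ] at h1
    exact h1
  have : Fact (Nat.Prime 2) := ⟨Nat.prime_two⟩
  let κ2 : E →+* PadicAlgCl 2 := ((IsAlgClosed.lift : E →ₐ[ℚ] PadicAlgCl 2) : E →+* PadicAlgCl 2)
  obtain ⟨ρ2, hρ2⟩ := att_exists hN hP 2 κ2
  have hne : Nonempty (Fin n) := ⟨⟨0, hn⟩⟩
  refine ⟨Module.finrank (PadicAlgCl 2) (Commutant ρ2), ?_, hall 2 κ2 ρ2 hρ2,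
    fun ℓ _ κ => ⟨att_exists hN hP ℓ κ, fun ρ hρ => ?_⟩⟩
  · have h1m : (1 : Matrix (Fin n) (Fin n) (PadicAlgCl 2)) ∈ Commutant ρ2 :=
      fun g => by rw [mul_one, one_mul]
    have : Nontrivial (Commutant ρ2) := ⟨⟨⟨1, h1m⟩, 0, fun h => one_ne_zero (congrArg Subtype.val h)⟩⟩
    exact Module.finrank_pos
  · have h1 : Module.finrank (PadicAlgCl ℓ) (Commutant ρ) =
        Module.finrank (PadicAlgCl 2) (Commutant ρ2) := by
      exact_mod_cast mv_unique (hall ℓ κ ρ hρ) (hall 2 κ2 ρ2 hρ2)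
    refine ⟨h1, ?_⟩
    rw [← h1]
    constructor
    · intro h2
      obtain ⟨χ, hχ⟩ := hcyc ℓ κ
      refine ⟨hn, fun Y hY => irr_of ρ hρ.semi hn χ ?_ Y hY⟩
      rw [finrank_comm ρ χ, h2]
    · exact schur ρ

end

end Pool.Agent.H500.LV
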