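import Pool.Agent.H500.ME.All

set_option autoImplicit false
set_option linter.unusedSectionVars false

/-!
# Tate twists and the mean values
-/

namespace Pool.Agent.H500.LV

open NumberField IsDedekindDomain Filter Topology Polynomial
open Pool.Agent.W401.Cheb (GK IsFrob IsInert dens)
open Pool.Agent.H500.MW (PosUD)
open Pool.Agent.H500.TH (SolRes)
open Pool.Agent.H500.ME

/-- the twist `ρ ⊗ χ^k` -/
def tw {G C : Type} [Group G] [Field C] {n : ℕ} (χ : G →* Cˣ) (k : ℤ) (ρ : G →* GL (Fin n) C) :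
    G →* GL (Fin n) C :=
  MonoidHom.toHomUnits
    { toFun := fun g => ((χ g ^ k : Cˣ) : C) • (ρ g : Matrix (Fin n) (Fin n) C)
      map_one' := by
        rw [map_one, one_zpow, Units.val_one, map_one, Units.val_one, one_smul]
      map_mul' := fun a b => by
        rw [map_mul, mul_zpow, Units.val_mul, map_mul, Units.val_mul, smul_mul_smul_comm] }

theorem tw_coe {G C : Type} [Group G] [Field C] {n : ℕ} (χ : G →* Cˣ) (k : ℤ)
    (ρ : G →* GL (Fin n) C) (g : G) : (tw χ k ρ g : Matrix (Fin n) (Fin n) C) =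
      ((χ g ^ k : Cˣ) : C) • (ρ g : Matrix (Fin n) (Fin n) C) := rfl

theorem tens_tw {G C : Type} [Group G] [Field C] {n : ℕ} (χ : G →* Cˣ) (k : ℤ)
    (ρ : G →* GL (Fin n) C) (a b : ℕ) (g : G) :
    tens a b (tw χ k ρ) g = ((χ g ^ (k * ((a : ℤ) - (b : ℤ))) : Cˣ) : C) • tens a b ρ g := by
  ext x y
  have e1 : ∀ (g' : G) (i j : Fin n), (tw χ k ρ g' : Matrix (Fin n) (Fin n) C) i j =
      ((χ g' ^ k : Cˣ) : C) * (ρ g' : Matrix (Fin n) (Fin n) C) i j := fun _ _ _ => rfl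
  have e2 : tens a b (tw χ k ρ) g x y =
      (∏ r : Fin a, ((χ g ^ k : Cˣ) : C) * (ρ g : Matrix (Fin n) (Fin n) C) (x.1 r) (y.1 r)) *
      ∏ r : Fin b, ((χ g⁻¹ ^ k : Cˣ) : C) *
        (ρ g⁻¹ : Matrix (Fin n) (Fin n) C) (y.2 r) (x.2 r) := rfl
  have e3 : (((χ g ^ (k * ((a : ℤ) - (b : ℤ))) : Cˣ) : C) • tens a b ρ g) x y =
      ((χ g ^ (k * ((a : ℤ) - (b : ℤ))) : Cˣ) : C) *
        ((∏ r : Fin a, (ρ g : Matrix (Fin n) (Fin n) C) (x.1 r) (y.1 r)) *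
          ∏ r : Fin b, (ρ g⁻¹ : Matrix (Fin n) (Fin n) C) (y.2 r) (x.2 r)) := rfl
  rw [e2, e3, Finset.prod_mul_distrib, Finset.prod_mul_distrib, Finset.prod_const,
    Finset.prod_const, Finset.card_univ, Finset.card_univ, Fintype.card_fin, Fintype.card_fin]
  have h1 : ((χ g ^ (k * ((a : ℤ) - (b : ℤ))) : Cˣ) : C) =
      ((χ g ^ k : Cˣ) : C) ^ a * ((χ g⁻¹ ^ k : Cˣ) : C) ^ b := by
    rw [← Units.val_pow_eq_pow_val, ← Units.val_pow_eq_pow_val, ← Units.val_mul]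
    congr 1
    rw [map_inv, inv_zpow, mul_sub, zpow_sub, zpow_mul, zpow_mul, zpow_natCast, zpow_natCast,
      inv_pow]
  rw [h1]
  ring

section
variable {K E : Type} [Field K] [NumberField K] [Field E] [NumberField E]

/-- **mean values for the Tate twist of weight zero** -/
theorem mean_even (N n : ℕ) (hN : 2 ≤ N)
    (P : HeightOneSpectrum (𝓞 K) → (𝓞 E)[X]) (hP : PosUD (SolRes N n P)) (u : ℤ) (τ : E →+* ℂ)
    (hw : ∀ v : HeightOneSpectrum (𝓞 K), (N : 𝓞 K) ∉ v.asIdeal →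
      ∀ z ∈ ((P v).map (τ.comp (algebraMap (𝓞 E) E))).roots,
        ‖z‖ = (Ideal.absNorm v.asIdeal : ℝ) ^ u)
    (ℓ : ℕ) [hℓ : Fact ℓ.Prime] (κ : E →+* PadicAlgCl ℓ) (ι : PadicAlgCl ℓ ≃+* ℂ)
    (ρ : GK K →* GL (Fin n) (PadicAlgCl ℓ)) (hρ : Att N n P ℓ κ ρ)
    (χ : GK K →* (PadicAlgCl ℓ)ˣ) (hχ : IsCyc ℓ χ) (a b m : ℕ)
    (W : GK K →* GL (Fin m) (PadicAlgCl ℓ))
    (T : Matrix ((Fin a → Fin n) × (Fin b → Fin n)) (Fin m) (PadicAlgCl ℓ))
    (hT : Function.Injective T.mulVec)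
    (hTW : ∀ g, tens a b (tw χ u ρ) g * T =
      T * (W g : Matrix (Fin m) (Fin m) (PadicAlgCl ℓ)))
    (F : HeightOneSpectrum (𝓞 K) → ℂ)
    (hF : ∀ᶠ v : HeightOneSpectrum (𝓞 K) in cofinite, ∀ σ, IsFrob v σ →
      F v = ι (W σ⁻¹ : Matrix (Fin m) (Fin m) (PadicAlgCl ℓ)).trace) :
    MV F (Module.finrank (PadicAlgCl ℓ) (Inv W) : ℂ) := by
  classical
  set q : ℤ := u * ((a : ℤ) - (b : ℤ)) with hq
  set W1 : GK K →* GL (Fin m) (PadicAlgCl ℓ) := tw χ (-q) W with hW1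
  have hw' : ∀ v : HeightOneSpectrum (𝓞 K), (N : 𝓞 K) ∉ v.asIdeal →
      ∀ z ∈ ((P v).map (τ.comp (algebraMap (𝓞 E) E))).roots,
        ‖z‖ = (Ideal.absNorm v.asIdeal : ℝ) ^ (((2 * u : ℤ) : ℝ) / 2) := by
    intro v hv z hz
    rw [hw v hv z hz]
    have h1 : ((2 * u : ℤ) : ℝ) / 2 = (u : ℝ) := by push_cast; ring
    rw [h1, Real.rpow_intCast]
  have h1 := mean_W all_CYC all_DUI all_TRI all_PUR N n hN P hP (2 * u) τ hw' ℓ κ ι ρ hρ χ hχ
    a b m W1 T (fun x hx => hT (by rw [hx, Matrix.mulVec_zero])) (fun g => by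
      have h2 := hTW g
      rw [tens_tw] at h2
      rw [hW1, tw_coe, Matrix.mul_smul, ← h2, Matrix.smul_mul, smul_smul, ← Units.val_mul,
        ← zpow_add, neg_add_cancel, zpow_zero, Units.val_one, one_smul]) F (by
      filter_upwards [hF, ev_not_mem (K := K) hℓ.out.pos] with v hv hvℓ σ hσ
      rw [hv σ hσ]
      have hpos : (0 : ℝ) < (Ideal.absNorm v.asIdeal : ℝ) := Pool.Agent.H358.ME.ACM.norm_pos v
      have h3 : (W1 σ⁻¹ : Matrix (Fin m) (Fin m) (PadicAlgCl ℓ)).trace =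
          ((Ideal.absNorm v.asIdeal : ℕ) : PadicAlgCl ℓ) ^ q *
            (W σ⁻¹ : Matrix (Fin m) (Fin m) (PadicAlgCl ℓ)).trace := by
        rw [hW1, tw_coe, Matrix.trace_smul, smul_eq_mul, map_inv χ, inv_zpow', neg_neg,
          Units.val_zpow_eq_zpow_val, hχ.frob v hvℓ σ hσ]
      rw [h3, map_mul, map_zpow₀, map_natCast]
      have h4 : nf (2 * u * ((a : ℤ) - (b : ℤ))) v =
          ((Ideal.absNorm v.asIdeal : ℕ) : ℂ) ^ q := by
        show (((Ideal.absNorm v.asIdeal : ℝ) ^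
          (((2 * u * ((a : ℤ) - (b : ℤ)) : ℤ) : ℝ) / 2) : ℝ) : ℂ) = _
        have h5 : ((2 * u * ((a : ℤ) - (b : ℤ)) : ℤ) : ℝ) / 2 = (q : ℝ) := by
          rw [hq]
          push_cast
          ring
        rw [h5, Real.rpow_intCast]
        push_cast
        rfl
      rw [h4, mul_div_cancel_left₀]
      exact zpow_ne_zero _ (by exact_mod_cast hpos.ne'))
  have h2 := h1.1 q (by rw [hq]; ring)
  have h3 : Eig W1 χ (-q) = Inv W := by
    ext x
    rw [mem_Eig]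
    constructor
    · intro h g
      have h4 := h g
      rw [hW1, tw_coe, Matrix.smul_mulVec] at h4
      exact smul_right_injective _ (Units.ne_zero (χ g ^ (-q))) h4
    · intro h g
      rw [hW1, tw_coe, Matrix.smul_mulVec, h g]
  rw [h3] at h2
  exact h2

end

end Pool.Agent.H500.LV
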